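import Pool.Agent.Lib.MP_9490e0_al.Window

/-!
The probabilistic part of the lower bound.
-/

set_option autoImplicit false

namespace Pool.Agent.Lib.MP_9490e0_al

open Finset

theorem cb_bound (j : ℕ) : j.centralBinom ^ 2 * (2 * j + 1) ≤ 16 ^ j := by
  induction j with
  | zero => simp
  | succ j ih =>
    have h := Nat.succ_mul_centralBinom_succ j
    have h1 : (j + 1) ^ 2 * ((j + 1).centralBinom ^ 2 * (2 * (j + 1) + 1)) ≤
        (j + 1) ^ 2 * 16 ^ (j + 1) := by
      calc (j + 1) ^ 2 * ((j + 1).centralBinom ^ 2 * (2 * (j + 1) + 1))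
          = ((j + 1) * (j + 1).centralBinom) ^ 2 * (2 * (j + 1) + 1) := by ring
        _ = (2 * (2 * j + 1) * j.centralBinom) ^ 2 * (2 * (j + 1) + 1) := by rw [h]
        _ = 4 * (2 * j + 1) * (2 * j + 3) * (j.centralBinom ^ 2 * (2 * j + 1)) := by ring
        _ ≤ 4 * (2 * j + 1) * (2 * j + 3) * 16 ^ j := Nat.mul_le_mul_left _ ih
        _ ≤ (16 * (j + 1) ^ 2) * 16 ^ j := Nat.mul_le_mul_right _ (by nlinarith)
        _ = (j + 1) ^ 2 * 16 ^ (j + 1) := by ring
    exact Nat.le_of_mul_le_mul_left h1 (by positivity)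

/-- The probability that a sum of `m` random signs is `0` is at most `1 / √(m + 1)`. -/
theorem card_zero {α : Type} [Fintype α] [DecidableEq α] (T : Finset α) :
    #{u : α → Bool | ∑ t ∈ T, sg (u t) = 0} ^ 2 * (#T + 1) ≤ 4 ^ Fintype.card α := by
  classical
  have hsum : ∀ u : α → Bool, ∑ t ∈ T, sg (u t) = 2 * (#{t ∈ T | u t = true} : ℤ) - #T := by
    intro u
    have h1 : ∀ t ∈ T, sg (u t) = 2 * (if u t = true then 1 else 0) - 1 := by
      intro t _
      unfold sg
      split_ifs <;> norm_num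
    rw [sum_congr rfl h1, sum_sub_distrib, ← mul_sum, sum_boole]
    simp
  by_cases hpar : ∃ j, #T = 2 * j
  · obtain ⟨j, hj⟩ := hpar
    have hle : #{u : α → Bool | ∑ t ∈ T, sg (u t) = 0} ≤ j.centralBinom * 2 ^ (Fintype.card α - #T) := by
      calc #{u : α → Bool | ∑ t ∈ T, sg (u t) = 0} ≤ #(powersetCard j T ×ˢ powerset Tᶜ) := by
            refine card_le_card_of_injOn
              (fun u => ({t ∈ T | u t = true}, {t ∈ Tᶜ | u t = true})) ?_ ?_
            · intro u hu
              simp only [coe_filter, mem_univ, true_and, Set.mem_ofPred_eq] at hu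
              rw [mem_coe, mem_product, mem_powersetCard, mem_powerset]
              refine ⟨⟨filter_subset _ _, ?_⟩, filter_subset _ _⟩
              have := hsum u
              simp only
              omega
            · intro u _ v _ huv
              rw [Prod.mk.injEq] at huv
              funext t
              by_cases ht : t ∈ T
              · have h1 := Finset.ext_iff.mp huv.1 t
                simp only [mem_filter, ht, true_and] at h1
                exact Bool.eq_iff_iff.mpr h1
              · have h1 := Finset.ext_iff.mp huv.2 t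
                simp only [mem_filter, mem_compl, ht, not_false_eq_true, true_and] at h1
                exact Bool.eq_iff_iff.mpr h1
        _ = j.centralBinom * 2 ^ (Fintype.card α - #T) := by
            rw [card_product, card_powersetCard, card_powerset, card_compl, hj,
              Nat.centralBinom_eq_two_mul_choose]
    have hT : #T ≤ Fintype.card α := card_le_univ T
    calc #{u : α → Bool | ∑ t ∈ T, sg (u t) = 0} ^ 2 * (#T + 1)
        ≤ (j.centralBinom * 2 ^ (Fintype.card α - #T)) ^ 2 * (#T + 1) :=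
          Nat.mul_le_mul_right _ (Nat.pow_le_pow_left hle 2)
      _ = (j.centralBinom ^ 2 * (2 * j + 1)) * 4 ^ (Fintype.card α - #T) := by
          rw [mul_pow, ← pow_mul, mul_comm (Fintype.card α - #T) 2, pow_mul, hj]
          ring
      _ ≤ 16 ^ j * 4 ^ (Fintype.card α - #T) := Nat.mul_le_mul_right _ (cb_bound j)
      _ = 4 ^ Fintype.card α := by
          rw [show (16 : ℕ) = 4 ^ 2 by norm_num, ← pow_mul, ← hj, ← pow_add]
          congr 1
          omega
  · have h0 : #{u : α → Bool | ∑ t ∈ T, sg (u t) = 0} = 0 := by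
      rw [card_eq_zero, filter_eq_empty_iff]
      intro u _ hu
      have := hsum u
      exact hpar ⟨#{t ∈ T | u t = true}, by omega⟩
    rw [h0]
    simp

/-- The word with signs `u`. -/
def wd {h : ℕ} (u : Fin h → Bool) : List (Unit × Bool) := List.ofFn fun t => ((), u t)

theorem length_wd {h : ℕ} (u : Fin h → Bool) : (wd u).length = h := by
  unfold wd; simp

theorem sm_take_wd {h : ℕ} (u : Fin h → Bool) (b : ℕ) :
    sm ((wd u).take b) = ∑ t : Fin h with t.val < b, sg (u t) := by
  induction b with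
  | zero => simp [sm]
  | succ b ih =>
    rw [List.take_add_one, sm_append, ih]
    by_cases hb : b < h
    · have h1 : (wd u)[b]? = some ((), u ⟨b, hb⟩) := by
        unfold wd
        rw [List.getElem?_ofFn, dif_pos hb]
      have h2 : (univ.filter fun t : Fin h => t.val < b + 1) =
          insert ⟨b, hb⟩ (univ.filter fun t : Fin h => t.val < b) := by
        ext t
        simp only [mem_filter, mem_univ, true_and, mem_insert, Fin.ext_iff]
        omega
      rw [h1, h2, sum_insert (by simp)]
      simp [sm]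
      ring
    · have h1 : (wd u)[b]? = none := by
        rw [List.getElem?_eq_none]
        rw [length_wd]; omega
      have h2 : (univ.filter fun t : Fin h => t.val < b + 1) =
          (univ.filter fun t : Fin h => t.val < b) := by
        ext t
        have := t.isLt
        simp only [mem_filter, mem_univ, true_and]
        omega
      rw [h1, h2]
      simp [sm]

theorem card_eq_prefix {h : ℕ} {b b' E : ℕ} (hb : b + E * E ≤ b' + 1) (hb' : b' ≤ h) :
    E * #{u : Fin h → Bool | sm ((wd u).take b) = sm ((wd u).take b')} ≤ 2 ^ h := by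
  rcases Nat.eq_zero_or_pos E with hE | hE
  · subst hE; simp
  have hle : b ≤ b' := by nlinarith
  set T : Finset (Fin h) := {t : Fin h | b ≤ t.val ∧ t.val < b'} with hT
  have hcard : #T = b' - b := by
    have : T = (Ico b b').attachFin (fun n hn => by
        rw [mem_Ico] at hn; omega) := by
      ext t
      rw [hT, mem_filter, mem_attachFin, mem_Ico]
      simp
    rw [this, card_attachFin, Nat.card_Ico]
  have heq : ∀ u : Fin h → Bool, sm ((wd u).take b) = sm ((wd u).take b') ↔
      ∑ t ∈ T, sg (u t) = 0 := by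
    intro u
    rw [sm_take_wd, sm_take_wd]
    have h1 : (univ.filter fun t : Fin h => t.val < b') =
        (univ.filter fun t : Fin h => t.val < b) ∪ T := by
      ext t
      simp only [hT, mem_filter, mem_univ, true_and, mem_union]
      omega
    rw [h1, sum_union (by
      rw [disjoint_left]
      intro t ht ht'
      simp only [hT, mem_filter, mem_univ, true_and] at ht ht'
      omega)]
    constructor
    · intro h2; linarith
    · intro h2; linarith
  simp_rw [heq]
  have h1 := card_zero T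
  rw [Fintype.card_fin, hcard] at h1
  have h2 : (E * #{u : Fin h → Bool | ∑ t ∈ T, sg (u t) = 0}) ^ 2 ≤ (2 ^ h) ^ 2 := by
    calc (E * #{u : Fin h → Bool | ∑ t ∈ T, sg (u t) = 0}) ^ 2
        = #{u : Fin h → Bool | ∑ t ∈ T, sg (u t) = 0} ^ 2 * (E * E) := by ring
      _ ≤ #{u : Fin h → Bool | ∑ t ∈ T, sg (u t) = 0} ^ 2 * (b' - b + 1) :=
          Nat.mul_le_mul_left _ (by omega)
      _ ≤ 4 ^ h := h1
      _ = (2 ^ h) ^ 2 := by rw [← pow_mul, mul_comm h 2, pow_mul]; norm_num
  exact (Nat.pow_le_pow_iff_left (by norm_num)).mp h2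

/-- Number of pairs of equal partial sums in a window, summed over all words. -/
theorem sum_pairs {h ℓ o E : ℕ} (ho : o + ℓ ≤ h) :
    E * ∑ u : Fin h → Bool, #{p ∈ range ℓ ×ˢ range ℓ |
      sm ((wd u).take (o + p.1)) = sm ((wd u).take (o + p.2))} ≤
      (ℓ * ℓ + E * (ℓ * (2 * (E * E)))) * 2 ^ h := by
  classical
  have hswap : ∑ u : Fin h → Bool, #{p ∈ range ℓ ×ˢ range ℓ |
      sm ((wd u).take (o + p.1)) = sm ((wd u).take (o + p.2))} =
      ∑ p ∈ range ℓ ×ˢ range ℓ, #{u : Fin h → Bool |
        sm ((wd u).take (o + p.1)) = sm ((wd u).take (o + p.2))} := by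
    simp_rw [card_filter]
    rw [sum_comm]
  rw [hswap, mul_sum]
  have hterm : ∀ p ∈ range ℓ ×ˢ range ℓ, E * #{u : Fin h → Bool |
        sm ((wd u).take (o + p.1)) = sm ((wd u).take (o + p.2))} ≤
        2 ^ h + (if p.1 < p.2 + E * E ∧ p.2 < p.1 + E * E then E * 2 ^ h else 0) := by
    intro p hp
    rw [mem_product, mem_range, mem_range] at hp
    split_ifs with hc
    · have : #{u : Fin h → Bool |
        sm ((wd u).take (o + p.1)) = sm ((wd u).take (o + p.2))} ≤ 2 ^ h := by
        refine le_trans (card_le_univ _) ?_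
        simp
      have := Nat.mul_le_mul_left E this
      omega
    · rw [add_zero]
      by_cases h1 : p.1 < p.2 + E * E
      · refine card_eq_prefix ?_ ?_ <;> omega
      · have : ∀ u : Fin h → Bool, sm ((wd u).take (o + p.1)) = sm ((wd u).take (o + p.2)) ↔
            sm ((wd u).take (o + p.2)) = sm ((wd u).take (o + p.1)) := fun u => eq_comm
        simp_rw [this]
        refine card_eq_prefix ?_ ?_ <;> omega
  have hnear : #{p ∈ range ℓ ×ˢ range ℓ | p.1 < p.2 + E * E ∧ p.2 < p.1 + E * E} ≤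
      ℓ * (2 * (E * E)) := by
    calc #{p ∈ range ℓ ×ˢ range ℓ | p.1 < p.2 + E * E ∧ p.2 < p.1 + E * E}
        ≤ #(range ℓ ×ˢ range (2 * (E * E))) := by
          refine card_le_card_of_injOn (fun p => (p.1, p.2 + E * E - p.1)) ?_ ?_
          · intro p hp
            rw [mem_coe, mem_filter, mem_product, mem_range, mem_range] at hp
            rw [mem_coe, mem_product, mem_range, mem_range]
            simp only
            omega
          · rintro ⟨a, b⟩ hp ⟨a', b'⟩ hp' he
            rw [mem_coe, mem_filter, mem_product, mem_range, mem_range] at hp hp'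
            simp only [Prod.mk.injEq] at he hp hp' ⊢
            omega
      _ = ℓ * (2 * (E * E)) := by rw [card_product, card_range, card_range]
  calc _ ≤ ∑ p ∈ range ℓ ×ˢ range ℓ,
        (2 ^ h + (if p.1 < p.2 + E * E ∧ p.2 < p.1 + E * E then E * 2 ^ h else 0)) :=
        sum_le_sum hterm
    _ = ℓ * ℓ * 2 ^ h +
        #{p ∈ range ℓ ×ˢ range ℓ | p.1 < p.2 + E * E ∧ p.2 < p.1 + E * E} * (E * 2 ^ h) := by
        rw [sum_add_distrib, sum_const, card_product, card_range, smul_eq_mul, ← sum_filter,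
          sum_const, smul_eq_mul]
    _ ≤ ℓ * ℓ * 2 ^ h + ℓ * (2 * (E * E)) * (E * 2 ^ h) := by
        have := Nat.mul_le_mul_right (E * 2 ^ h) hnear
        omega
    _ = _ := by ring

open Classical in
/-- A window is atypical with probability at most `1 / 16`. -/
theorem card_atyp {h N ℓ o E : ℕ} (hN : 0 < N) (hE : E = 128 * N ^ 2) (hℓ : ℓ = 2 * E ^ 3)
    (ho : o + ℓ ≤ h) :
    16 * #{u : Fin h → Bool | Atyp N ℓ (wd u) o} ≤ 2 ^ h := by
  have hEpos : 0 < E := by rw [hE]; positivity
  have hℓpos : 0 < ℓ := by rw [hℓ]; positivity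
  have h1 : ∀ u : Fin h → Bool, Atyp N ℓ (wd u) o → ℓ ^ 2 ≤ 4 * N ^ 2 *
      #{p ∈ range ℓ ×ˢ range ℓ | sm ((wd u).take (o + p.1)) = sm ((wd u).take (o + p.2))} := by
    rintro u ⟨a, ha⟩
    have h2 : #{i ∈ range ℓ | sm ((wd u).take (o + i)) = a} ^ 2 ≤
        #{p ∈ range ℓ ×ˢ range ℓ | sm ((wd u).take (o + p.1)) = sm ((wd u).take (o + p.2))} := by
      rw [sq, ← card_product]
      apply card_le_card
      intro p hp
      rw [mem_product, mem_filter, mem_filter] at hp
      rw [mem_filter, mem_product]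
      exact ⟨⟨hp.1.1, hp.2.1⟩, by rw [hp.1.2, hp.2.2]⟩
    calc ℓ ^ 2 ≤ (2 * N * #{i ∈ range ℓ | sm ((wd u).take (o + i)) = a}) ^ 2 :=
          Nat.pow_le_pow_left ha 2
      _ = 4 * N ^ 2 * #{i ∈ range ℓ | sm ((wd u).take (o + i)) = a} ^ 2 := by ring
      _ ≤ _ := Nat.mul_le_mul_left _ h2
  have h2 : #{u : Fin h → Bool | Atyp N ℓ (wd u) o} * ℓ ^ 2 ≤ 4 * N ^ 2 *
      ∑ u : Fin h → Bool, #{p ∈ range ℓ ×ˢ range ℓ |
        sm ((wd u).take (o + p.1)) = sm ((wd u).take (o + p.2))} := by
    rw [mul_sum, ← smul_eq_mul, ← sum_const]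
    calc ∑ _u ∈ {u : Fin h → Bool | Atyp N ℓ (wd u) o}, ℓ ^ 2
        ≤ ∑ u ∈ {u : Fin h → Bool | Atyp N ℓ (wd u) o}, 4 * N ^ 2 *
          #{p ∈ range ℓ ×ˢ range ℓ |
            sm ((wd u).take (o + p.1)) = sm ((wd u).take (o + p.2))} := by
          apply sum_le_sum
          intro u hu
          exact h1 u (mem_filter.mp hu).2
      _ ≤ _ := sum_le_sum_of_subset (filter_subset _ _)
  have h3 := sum_pairs (h := h) (ℓ := ℓ) (o := o) (E := E) ho
  have h4 : (E * ℓ ^ 2) * (16 * #{u : Fin h → Bool | Atyp N ℓ (wd u) o}) ≤ (E * ℓ ^ 2) * 2 ^ h := by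
    calc (E * ℓ ^ 2) * (16 * #{u : Fin h → Bool | Atyp N ℓ (wd u) o})
        = 16 * E * (#{u : Fin h → Bool | Atyp N ℓ (wd u) o} * ℓ ^ 2) := by ring
      _ ≤ 16 * E * (4 * N ^ 2 * ∑ u : Fin h → Bool, #{p ∈ range ℓ ×ˢ range ℓ |
        sm ((wd u).take (o + p.1)) = sm ((wd u).take (o + p.2))}) := Nat.mul_le_mul_left _ h2
      _ = 64 * N ^ 2 * (E * ∑ u : Fin h → Bool, #{p ∈ range ℓ ×ˢ range ℓ |
        sm ((wd u).take (o + p.1)) = sm ((wd u).take (o + p.2))}) := by ring
      _ ≤ 64 * N ^ 2 * ((ℓ * ℓ + E * (ℓ * (2 * (E * E)))) * 2 ^ h) := Nat.mul_le_mul_left _ h3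
      _ = (128 * N ^ 2 * ℓ ^ 2) * 2 ^ h := by
          have : E * (ℓ * (2 * (E * E))) = ℓ * ℓ := by
            conv_rhs => rw [hℓ]
            rw [hℓ]
            ring
          rw [this]
          ring
      _ = (E * ℓ ^ 2) * 2 ^ h := by rw [hE]
  exact Nat.le_of_mul_le_mul_left h4 (by positivity)

/-- Second moment of the sum of `h` signs. -/
theorem second_moment (h : ℕ) :
    ∑ u : Fin h → Bool, (∑ t : Fin h, sg (u t)) ^ 2 = (h : ℤ) * 2 ^ h := by
  induction h with
  | zero => simp
  | succ h ih =>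
    rw [← (Fin.consEquiv (fun _ : Fin (h + 1) => Bool)).sum_comp, Fintype.sum_prod_type]
    have h1 : ∀ (b : Bool) (u : Fin h → Bool),
        (∑ t : Fin (h + 1), sg ((Fin.consEquiv (fun _ : Fin (h + 1) => Bool)) (b, u) t)) =
          sg b + ∑ t : Fin h, sg (u t) := by
      intro b u
      rw [Fin.sum_univ_succ]
      simp [Fin.consEquiv]
    simp_rw [h1]
    rw [Fintype.sum_bool]
    have h2 : ∑ u : Fin h → Bool, (sg true + ∑ t : Fin h, sg (u t)) ^ 2 +
        ∑ u : Fin h → Bool, (sg false + ∑ t : Fin h, sg (u t)) ^ 2 =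
        2 * (∑ u : Fin h → Bool, (∑ t : Fin h, sg (u t)) ^ 2) + 2 * 2 ^ h := by
      rw [← sum_add_distrib, mul_sum]
      have h3 : (2 * 2 ^ h : ℤ) = ∑ _u : Fin h → Bool, 2 := by
        rw [sum_const, card_univ, Fintype.card_fun, Fintype.card_bool, Fintype.card_fin]
        simp
        ring
      rw [h3, ← sum_add_distrib]
      apply sum_congr rfl
      intro u _
      simp only [sg, if_true, Bool.false_eq_true, if_false]
      ring
    rw [h2, ih]
    push_cast
    ring

end Pool.Agent.Lib.MP_9490e0_al
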