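import Pool.Agent.Lib.MP_9490e0_al.TM

/-!
Crossing sequences and the gluing lemma.
-/

set_option autoImplicit false

namespace Pool.Agent.Lib.MP_9490e0_al

namespace Machine

variable {A : Type} {M : Machine A}

/-- Side of the boundary `b` (between the cells `b - 1` and `b`): `true` = right. -/
def inS (σ : Bool) (b p : ℤ) : Prop := if σ then b ≤ p else p < b

/-- Boundaries on one side of the boundary `b`, `b` included. -/
def inB (σ : Bool) (b x : ℤ) : Prop := if σ then b ≤ x else x ≤ b

theorem inS_total (b p : ℤ) (σ : Bool) : inS σ b p ∨ inS (!σ) b p := by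
  cases σ <;> simp [inS, le_or_gt, lt_or_ge]

theorem inS_not {b p : ℤ} {σ : Bool} (h : inS σ b p) : ¬ inS (!σ) b p := by
  cases σ <;> simp [inS] at * <;> omega

/-- The crossing event of the boundary `x` in the next step. -/
noncomputable def st (x : ℤ) (c : M.Cfg) : List M.Q :=
  open Classical in
  if (c.pos < x ∧ x ≤ (M.nxt c).pos) ∨ ((M.nxt c).pos < x ∧ x ≤ c.pos) then [(M.nxt c).q] else []

/-- The crossing sequence at the boundary `x` during the next `t` steps. -/
noncomputable def cr (x : ℤ) : M.Cfg → ℕ → List M.Q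
  | _, 0 => []
  | c, t + 1 => st x c ++ cr x (M.nxt c) t

@[simp] theorem cr_zero (x : ℤ) (c : M.Cfg) : cr x c 0 = [] := rfl

theorem cr_succ (x : ℤ) (c : M.Cfg) (t : ℕ) : cr x c (t + 1) = st x c ++ cr x (M.nxt c) t := rfl

theorem cr_add (x : ℤ) (c : M.Cfg) (s t : ℕ) :
    cr x c (s + t) = cr x c s ++ cr x (M.run c s) t := by
  induction s generalizing c with
  | zero => simp [run_zero]
  | succ s ih =>
    rw [show s + 1 + t = (s + t) + 1 by ring, cr_succ, ih, cr_succ, run_succ, List.append_assoc]

theorem st_of_halted (x : ℤ) {c : M.Cfg} (h : M.Halted c) : st x c = [] := by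
  unfold st
  rw [nxt_of_halted h, if_neg]
  omega

theorem cr_of_halted (x : ℤ) {c : M.Cfg} (h : M.Halted c) (t : ℕ) : cr x c t = [] := by
  induction t with
  | zero => rfl
  | succ t ih => rw [cr_succ, st_of_halted x h, nxt_of_halted h, ih]; rfl

theorem cr_eq_of_halted (x : ℤ) {c : M.Cfg} {s t : ℕ} (h : M.Halted (M.run c s)) (hst : s ≤ t) :
    cr x c t = cr x c s := by
  obtain ⟨r, rfl⟩ := Nat.exists_eq_add_of_le hst
  rw [cr_add, cr_of_halted x h, List.append_nil]

/-- no crossing of boundaries on the other side -/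
theorem st_other {b x : ℤ} {σ : Bool} {c : M.Cfg} (h1 : inS σ b c.pos)
    (h2 : inS σ b (M.nxt c).pos) (hx : inB (!σ) b x) : st x c = [] := by
  unfold st
  rw [if_neg]
  cases σ <;> simp [inS, inB] at * <;> omega

/-- at a crossing of `b`, no other boundary is crossed, and the head arrives at a fixed cell -/
theorem st_cross {b : ℤ} {σ : Bool} {c : M.Cfg} (h1 : inS σ b c.pos)
    (h2 : inS (!σ) b (M.nxt c).pos) :
    (∀ x, st x c = if x = b then [(M.nxt c).q] else []) ∧
      (M.nxt c).pos = if σ then b - 1 else b := by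
  have h3 := M.nxt_pos c
  constructor
  · intro x
    unfold st
    by_cases hx : x = b
    · rw [if_pos hx, if_pos]
      subst hx
      cases σ <;> simp [inS] at * <;> omega
    · rw [if_neg hx, if_neg]
      cases σ <;> simp [inS] at * <;> omega
  · cases σ <;> simp [inS] at * <;> omega

theorem stay {b : ℤ} {σ : Bool} (T : ℕ) : ∀ {c : M.Cfg}, inS σ b c.pos → cr b c T = [] →
    inS σ b (M.run c T).pos ∧ (∀ x, inB (!σ) b x → cr x c T = []) ∧
      ∀ i, inS (!σ) b i → (M.run c T).tape i = c.tape i := by
  induction T with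
  | zero => intro c hc _; exact ⟨hc, fun _ _ => rfl, fun _ _ => rfl⟩
  | succ T ih =>
    intro c hc hcr
    rw [cr_succ, List.append_eq_nil_iff] at hcr
    have h2 : inS σ b (M.nxt c).pos := by
      rcases inS_total b (M.nxt c).pos σ with h | h
      · exact h
      · have := (st_cross hc h).1 b
        rw [if_pos rfl, hcr.1] at this
        simp at this
    obtain ⟨e1, e2, e3⟩ := ih h2 hcr.2
    refine ⟨by rw [run_succ]; exact e1, ?_, ?_⟩
    · intro x hx
      rw [cr_succ, st_other hc h2 hx, e2 x hx]; rfl
    · intro i hi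
      rw [run_succ, e3 i hi]
      refine M.nxt_tape c ?_
      rintro rfl
      exact inS_not hc hi

theorem first {b : ℤ} {σ : Bool} (T : ℕ) : ∀ {c : M.Cfg} {q : M.Q} {rest : List M.Q},
    inS σ b c.pos → cr b c T = q :: rest →
    ∃ s, s < T ∧ inS (!σ) b (M.run c (s + 1)).pos ∧
      (M.run c (s + 1)).pos = (if σ then b - 1 else b) ∧
      (M.run c (s + 1)).q = q ∧ (∀ x, inB (!σ) b x → cr x c (s + 1) = if x = b then [q] else []) ∧
      ∀ i, inS (!σ) b i → (M.run c (s + 1)).tape i = c.tape i := by
  induction T with
  | zero => intro c q rest _ h; simp at h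
  | succ T ih =>
    intro c q rest hc hcr
    rw [cr_succ] at hcr
    rcases inS_total b (M.nxt c).pos σ with h2 | h2
    · have h0 : st b c = [] := st_other hc h2 (by cases σ <;> simp [inB])
      rw [h0, List.nil_append] at hcr
      obtain ⟨s, hs, e1, e2, e3, e4, e5⟩ := ih h2 hcr
      refine ⟨s + 1, by omega, ?_, ?_, ?_, ?_, ?_⟩
      · rw [run_succ]; exact e1
      · rw [run_succ]; exact e2
      · rw [run_succ]; exact e3
      · intro x hx
        rw [cr_succ, st_other hc h2 hx, List.nil_append]; exact e4 x hx
      · intro i hi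
        rw [run_succ, e5 i hi]
        refine M.nxt_tape c ?_
        rintro rfl
        exact inS_not hc hi
    · obtain ⟨f1, f2⟩ := st_cross hc h2
      rw [f1 b, if_pos rfl] at hcr
      have hq : (M.nxt c).q = q := by simpa using (List.cons.inj hcr).1
      refine ⟨0, by omega, ?_, ?_, ?_, ?_, ?_⟩
      · rw [run_succ, run_zero]; exact h2
      · rw [run_succ, run_zero]; exact f2
      · rw [run_succ, run_zero]; exact hq
      · intro x _
        rw [cr_succ, f1 x, cr_zero, List.append_nil, hq]
      · intro i hi
        rw [run_succ, run_zero]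
        refine M.nxt_tape c ?_
        rintro rfl
        exact inS_not hc hi

/-- The gluing lemma, inductive form. -/
theorem glue_aux (b : ℤ) (c : Bool → M.Cfg) (h : Bool → ℕ)
    (H : ∀ σ, M.Halted (M.run (c σ) (h σ))) (hcr : cr b (c false) (h false) = cr b (c true) (h true)) :
    ∀ (N : ℕ) (t : Bool → ℕ) (σ : Bool) (g : M.Cfg), (∀ τ, t τ ≤ h τ) →
      (h false - t false) + (h true - t true) = N →
      g.q = (M.run (c σ) (t σ)).q → g.pos = (M.run (c σ) (t σ)).pos → inS σ b g.pos →
      inS σ b (M.run (c !σ) (t !σ)).pos →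
      (∀ τ i, inS τ b i → g.tape i = (M.run (c τ) (t τ)).tape i) →
      cr b (c false) (t false) = cr b (c true) (t true) →
      ∃ k, M.Halted (M.run g k) ∧ (∃ τ, (M.run g k).q = (M.run (c τ) (h τ)).q) ∧
        ∀ τ x, inB τ b x → cr x (c τ) (t τ) ++ cr x g k = cr x (c τ) (h τ) := by
  intro N
  induction N using Nat.strong_induction_on with
  | _ N IH =>
  intro t σ g ht hN hq hp hS hS' htape hcrt
  have hcong := M.nxt_congr hq hp (htape σ _ hS)
  have hcrt' : cr b (c σ) (t σ) = cr b (c !σ) (t !σ) := by
    cases σ
    · exact hcrt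
    · exact hcrt.symm
  have hcr' : cr b (c σ) (h σ) = cr b (c !σ) (h !σ) := by
    cases σ
    · exact hcr
    · exact hcr.symm
  have key : ∀ τ x, cr x (c τ) (h τ) = cr x (c τ) (t τ) ++ cr x (M.run (c τ) (t τ)) (h τ - t τ) := by
    intro τ x
    rw [← cr_add, Nat.add_sub_cancel' (ht τ)]
  by_cases hhalt : M.Halted (M.run (c σ) (t σ))
  · -- the active run has halted
    have hf := run_eq_of_halted hhalt (ht σ)
    refine ⟨0, hcong.2.2.2.2 hhalt, ⟨σ, ?_⟩, ?_⟩
    · rw [run_zero, hq, hf]
    · intro τ x hx
      rw [cr_zero, List.append_nil]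
      by_cases hτ : τ = σ
      · subst hτ
        exact (cr_eq_of_halted x hhalt (ht τ)).symm
      · have hτ' : τ = !σ := by revert hτ; cases τ <;> cases σ <;> simp
        subst hτ'
        have h1 : cr b (M.run (c !σ) (t !σ)) (h (!σ) - t !σ) = [] := by
          have e1 := key (!σ) b
          rw [← hcr', cr_eq_of_halted b hhalt (ht σ), hcrt'] at e1
          exact List.append_right_eq_self.mp e1.symm
        rw [key (!σ) x, (stay _ hS' h1).2.1 x hx, List.append_nil]
  · -- the active run makes a step
    have hlt : t σ < h σ := by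
      rcases lt_or_eq_of_le (ht σ) with h1 | h1
      · exact h1
      · exact absurd (h1 ▸ H σ) hhalt
    set d := M.run (c σ) (t σ) with hd
    have hnq : (M.nxt g).q = (M.nxt d).q := hcong.1
    have hnp : (M.nxt g).pos = (M.nxt d).pos := hcong.2.1
    have hdpos : d.pos = g.pos := hp.symm
    have hrun1 : M.run (c σ) (t σ + 1) = M.nxt d := by rw [run_succ']
    have hst : ∀ x, st x g = st x d := by
      intro x
      unfold st
      rw [hnq, hnp, hp]
    -- tape of the glued configuration after the step
    have htape1 : ∀ i, inS σ b i → (M.nxt g).tape i = (M.nxt d).tape i := by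
      intro i hi
      by_cases h1 : i = g.pos
      · subst h1; exact hcong.2.2.1
      · rw [M.nxt_tape g h1, M.nxt_tape d (by rw [hdpos]; exact h1)]
        exact htape σ i hi
    have htape2 : ∀ i, inS (!σ) b i → (M.nxt g).tape i = (M.run (c !σ) (t !σ)).tape i := by
      intro i hi
      rw [M.nxt_tape g (by rintro rfl; exact inS_not hS hi)]
      exact htape (!σ) i hi
    have hdS : inS σ b d.pos := by rw [hdpos]; exact hS
    rcases inS_total b (M.nxt g).pos σ with h2 | h2
    · -- the head stays on the same side
      have h2' : inS σ b (M.nxt d).pos := by rw [← hnp]; exact h2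
      have hst0 : st b d = [] := st_other hdS h2' (by cases σ <;> simp [inB])
      let t' : Bool → ℕ := Function.update t σ (t σ + 1)
      have ht'σ : t' σ = t σ + 1 := by simp [t']
      have ht'o : t' (!σ) = t (!σ) := by simp [t', Function.update_of_ne]
      have hsplit : ∀ (f : Bool → ℕ), f false + f true = f σ + f (!σ) := by
        intro f; cases σ
        · rfl
        · simp [add_comm]
      have hmeas : (h false - t' false) + (h true - t' true) < N := by
        rw [hsplit (fun τ => h τ - t' τ), ← hN, hsplit (fun τ => h τ - t τ)]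
        simp only [ht'σ, ht'o]
        omega
      have hcrb : cr b (c σ) (t' σ) = cr b (c !σ) (t' !σ) := by
        rw [ht'σ, ht'o, cr_add, ← hd, cr_succ, cr_zero, List.append_nil, hst0, List.append_nil]
        exact hcrt'
      obtain ⟨k, k1, k2, k3⟩ := IH _ hmeas t' σ (M.nxt g)
        (by
          intro τ
          by_cases hτ : τ = σ
          · subst hτ; rw [ht'σ]; omega
          · have hτ' : τ = !σ := by revert hτ; cases τ <;> cases σ <;> simp
            subst hτ'; rw [ht'o]; exact ht _)
        rfl (by rw [ht'σ, hrun1]; exact hnq) (by rw [ht'σ, hrun1]; exact hnp) h2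
        (by rw [ht'o]; exact hS')
        (by
          intro τ i hi
          by_cases hτ : τ = σ
          · subst hτ; rw [ht'σ, hrun1]; exact htape1 i hi
          · have hτ' : τ = !σ := by revert hτ; cases τ <;> cases σ <;> simp
            subst hτ'; rw [ht'o]; exact htape2 i hi)
        (by
          revert hcrb
          cases σ
          · exact id
          · exact fun e => e.symm)
      refine ⟨k + 1, by rw [run_succ]; exact k1, by rw [run_succ]; exact k2, ?_⟩
      intro τ x hx
      rw [cr_succ, ← k3 τ x hx, ← List.append_assoc]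
      congr 1
      by_cases hτ : τ = σ
      · subst hτ
        rw [ht'σ, cr_add, ← hd, cr_succ, cr_zero, List.append_nil, hst x]
      · have hτ' : τ = !σ := by revert hτ; cases τ <;> cases σ <;> simp
        subst hτ'
        rw [ht'o, hst x, st_other hdS h2' hx, List.append_nil]
    · -- the head crosses the boundary
      have h2' : inS (!σ) b (M.nxt d).pos := by rw [← hnp]; exact h2
      obtain ⟨f1, f2⟩ := st_cross hdS h2'
      have hstb : st b d = [(M.nxt d).q] := by rw [f1 b, if_pos rfl]
      -- the passive run must cross with the same state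
      have e0 : cr b (c σ) (h σ) = cr b (c σ) (t σ) ++ ((M.nxt d).q ::
          cr b (M.nxt d) (h σ - (t σ + 1))) := by
        rw [key σ b]
        congr 1
        rw [show h σ - t σ = (h σ - (t σ + 1)) + 1 by omega, cr_succ, ← hd, hstb]
        rfl
      have e1 : cr b (M.run (c !σ) (t !σ)) (h (!σ) - t !σ) =
          (M.nxt d).q :: cr b (M.nxt d) (h σ - (t σ + 1)) := by
        have e2 := key (!σ) b
        rw [← hcr', e0, hcrt'] at e2
        exact (List.append_cancel_left e2).symm
      obtain ⟨s, hs, g1, g2, g3, g4, g5⟩ := first _ hS' e1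
      let t' : Bool → ℕ := fun τ => if τ = σ then t σ + 1 else t (!σ) + (s + 1)
      have ht'σ : t' σ = t σ + 1 := by simp [t']
      have ht'o : t' (!σ) = t (!σ) + (s + 1) := by simp [t']
      have hsplit : ∀ (f : Bool → ℕ), f false + f true = f σ + f (!σ) := by
        intro f; cases σ
        · rfl
        · simp [add_comm]
      have hmeas : (h false - t' false) + (h true - t' true) < N := by
        rw [hsplit (fun τ => h τ - t' τ), ← hN, hsplit (fun τ => h τ - t τ)]
        simp only [ht'σ, ht'o]
        omega
      have hro : M.run (c !σ) (t' !σ) = M.run (M.run (c !σ) (t !σ)) (s + 1) := by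
        rw [ht'o, run_add]
      have hcro : ∀ x, inB (!σ) b x → cr x (c !σ) (t' !σ) =
          cr x (c !σ) (t !σ) ++ if x = b then [(M.nxt d).q] else [] := by
        intro x hx
        rw [ht'o, cr_add, g4 x hx]
      have hcrσ : ∀ x, cr x (c σ) (t' σ) = cr x (c σ) (t σ) ++ st x d := by
        intro x
        rw [ht'σ, cr_add, ← hd, cr_succ, cr_zero, List.append_nil]
      have hcrb : cr b (c σ) (t' σ) = cr b (c !σ) (t' !σ) := by
        rw [hcrσ, hstb, hcro b (by cases σ <;> simp [inB]), if_pos rfl, hcrt']
      obtain ⟨k, k1, k2, k3⟩ := IH _ hmeas t' (!σ) (M.nxt g)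
        (by
          intro τ
          by_cases hτ : τ = σ
          · subst hτ; rw [ht'σ]; omega
          · have hτ' : τ = !σ := by revert hτ; cases τ <;> cases σ <;> simp
            subst hτ'; rw [ht'o]
            have := ht (!σ)
            omega)
        rfl (by rw [hro, g3]; exact hnq)
        (by rw [hro, g2, hnp, f2]) h2
        (by rw [Bool.not_not, ht'σ, hrun1]; exact h2')
        (by
          intro τ i hi
          by_cases hτ : τ = σ
          · subst hτ; rw [ht'σ, hrun1]; exact htape1 i hi
          · have hτ' : τ = !σ := by revert hτ; cases τ <;> cases σ <;> simp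
            subst hτ'; rw [hro, g5 i hi]; exact htape2 i hi)
        (by
          revert hcrb
          cases σ
          · exact id
          · exact fun e => e.symm)
      refine ⟨k + 1, by rw [run_succ]; exact k1, by rw [run_succ]; exact k2, ?_⟩
      intro τ x hx
      rw [cr_succ, ← k3 τ x hx, ← List.append_assoc]
      congr 1
      by_cases hτ : τ = σ
      · subst hτ
        rw [hcrσ, hst x]
      · have hτ' : τ = !σ := by revert hτ; cases τ <;> cases σ <;> simp
        subst hτ'
        rw [hcro x hx, hst x, f1 x]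

/-- **Gluing lemma.**  Two halting runs whose crossing sequences at the boundary `b` agree can be
glued at `b`. -/
theorem glue (b : ℤ) (c₁ c₂ : M.Cfg) (h₁ h₂ : ℕ) (H₁ : M.Halted (M.run c₁ h₁))
    (H₂ : M.Halted (M.run c₂ h₂)) (s₁ : c₁.pos < b) (s₂ : c₂.pos < b)
    (hcr : cr b c₁ h₁ = cr b c₂ h₂) :
    ∃ k, M.Halted (M.run ⟨c₁.q, c₁.pos, fun i => if i < b then c₁.tape i else c₂.tape i⟩ k) ∧
      ((M.run ⟨c₁.q, c₁.pos, fun i => if i < b then c₁.tape i else c₂.tape i⟩ k).q =
          (M.run c₁ h₁).q ∨
        (M.run ⟨c₁.q, c₁.pos, fun i => if i < b then c₁.tape i else c₂.tape i⟩ k).q =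
          (M.run c₂ h₂).q) ∧
      ∀ x ≤ b, cr x ⟨c₁.q, c₁.pos, fun i => if i < b then c₁.tape i else c₂.tape i⟩ k =
        cr x c₁ h₁ := by
  obtain ⟨k, k1, k2, k3⟩ := glue_aux b (fun τ => if τ then c₂ else c₁)
    (fun τ => if τ then h₂ else h₁) (by intro τ; cases τ <;> simpa) (by simpa using hcr) _
    (fun _ => 0) false
    ⟨c₁.q, c₁.pos, fun i => if i < b then c₁.tape i else c₂.tape i⟩
    (by intro τ; simp) rfl (by simp [run_zero]) (by simp [run_zero]) (by simpa [inS] using s₁)
    (by simpa [inS, run_zero] using s₂)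
    (by
      intro τ i hi
      cases τ
      · simp only [inS, Bool.false_eq_true, if_false] at hi
        simp [run_zero, hi]
      · simp only [inS, if_true] at hi
        simp [run_zero, not_lt.mpr hi])
    (by simp)
  refine ⟨k, k1, ?_, ?_⟩
  · obtain ⟨τ, hτ⟩ := k2
    cases τ
    · left; simpa using hτ
    · right; simpa using hτ
  · intro x hx
    have := k3 false x (by simpa [inB] using hx)
    simpa using this

end Machine

end Pool.Agent.Lib.MP_9490e0_al
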