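import Pool.Agent.Lib.MP_9490e0_al.Count

/-!
The lower bound: no single-tape machine solves the word problem of `ℤ` in generically linear time.
-/

set_option autoImplicit false

namespace Pool.Agent.Lib.MP_9490e0_al

open Finset

theorem sm_wd {h : ℕ} (u : Fin h → Bool) : sm (wd u) = ∑ t : Fin h, sg (u t) := by
  have h1 := sm_take_wd u h
  rw [List.take_of_length_le (length_wd u).le] at h1
  rw [h1]
  apply sum_congr _ fun _ _ => rfl
  ext t
  simp

theorem sm_parity (w : List (Unit × Bool)) : (2 : ℤ) ∣ sm w + w.length := by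
  induction w with
  | nil => simp [sm]
  | cons p w ih =>
    have h1 : sm (p :: w) = sg p.2 + sm w := by simp [sm]
    rw [h1, List.length_cons]
    obtain ⟨c, hc⟩ := ih
    obtain ⟨_, e⟩ := p
    cases e
    · exact ⟨c, by push_cast; simp only [sg, Bool.false_eq_true, if_false]; linarith⟩
    · exact ⟨c + 1, by push_cast; simp only [sg, if_true]; linarith⟩

/-- a word of length `r` with sum `2 a - r` -/
def pre (r a : ℕ) : List (Unit × Bool) :=
  List.replicate a ((), true) ++ List.replicate (r - a) ((), false)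

theorem length_pre {r a : ℕ} (h : a ≤ r) : (pre r a).length = r := by
  simp [pre]; omega

theorem sm_pre {r a : ℕ} (h : a ≤ r) : sm (pre r a) = 2 * (a : ℤ) - r := by
  unfold pre
  rw [sm_append]
  simp only [sm, List.map_replicate, List.sum_replicate, nsmul_eq_mul, sg, if_true,
    Bool.false_eq_true, if_false]
  push_cast [Nat.cast_sub h]
  ring

open Classical in
theorem atyp_append {N ℓ r : ℕ} (p w : List (Unit × Bool)) (hp : p.length = r) (o : ℕ) :
    Atyp N ℓ (p ++ w) (r + o) ↔ Atyp N ℓ w o := by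
  have h1 : ∀ i, sm ((p ++ w).take (r + o + i)) = sm p + sm (w.take (o + i)) := by
    intro i
    rw [List.take_append, sm_append, List.take_of_length_le (by omega)]
    congr 3
    omega
  unfold Atyp
  constructor
  · rintro ⟨a, ha⟩
    refine ⟨a - sm p, ?_⟩
    have h2 : {i ∈ range ℓ | sm ((p ++ w).take (r + o + i)) = a} =
        {i ∈ range ℓ | sm (w.take (o + i)) = a - sm p} := by
      apply filter_congr
      intro i _
      rw [h1]
      constructor
      · intro h; linarith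
      · intro h; linarith
    rw [← h2]
    exact ha
  · rintro ⟨a, ha⟩
    refine ⟨sm p + a, ?_⟩
    have h2 : {i ∈ range ℓ | sm ((p ++ w).take (r + o + i)) = sm p + a} =
        {i ∈ range ℓ | sm (w.take (o + i)) = a} := by
      apply filter_congr
      intro i _
      rw [h1]
      constructor
      · intro h; linarith
      · intro h; linarith
    rw [h2]
    exact ha

open Classical in
/-- Most words have few atypical windows and a small sum. -/
theorem card_good {N ℓ k E : ℕ} (hN : 0 < N) (hE : E = 128 * N ^ 2) (hℓ : ℓ = 2 * E ^ 3)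
    (hk : 256 * ℓ ^ 3 ≤ k) :
    2 ^ (k * ℓ) ≤ 2 * #{u : Fin (k * ℓ) → Bool |
      4 * #{j ∈ range k | Atyp N ℓ (wd u) (j * ℓ)} ≤ k ∧ |sm (wd u)| * (8 * ℓ) ≤ k} := by
  have hEpos : 0 < E := by rw [hE]; positivity
  have hℓpos : 0 < ℓ := by rw [hℓ]; positivity
  have hkpos : 0 < k := lt_of_lt_of_le (by positivity) hk
  set h := k * ℓ with hh
  -- few words with many atypical windows
  have hA : 4 * #{u : Fin h → Bool | k < 4 * #{j ∈ range k | Atyp N ℓ (wd u) (j * ℓ)}} ≤ 2 ^ h := by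
    have h1 : #{u : Fin h → Bool | k < 4 * #{j ∈ range k | Atyp N ℓ (wd u) (j * ℓ)}} * k ≤
        4 * ∑ j ∈ range k, #{u : Fin h → Bool | Atyp N ℓ (wd u) (j * ℓ)} := by
      have h2 : ∑ j ∈ range k, #{u : Fin h → Bool | Atyp N ℓ (wd u) (j * ℓ)} =
          ∑ u : Fin h → Bool, #{j ∈ range k | Atyp N ℓ (wd u) (j * ℓ)} := by
        simp_rw [card_filter]
        rw [sum_comm]
      rw [h2, mul_sum, ← smul_eq_mul, ← sum_const]
      calc ∑ _u ∈ {u : Fin h → Bool | k < 4 * #{j ∈ range k | Atyp N ℓ (wd u) (j * ℓ)}}, k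
          ≤ ∑ u ∈ {u : Fin h → Bool | k < 4 * #{j ∈ range k | Atyp N ℓ (wd u) (j * ℓ)}},
            4 * #{j ∈ range k | Atyp N ℓ (wd u) (j * ℓ)} := by
            apply sum_le_sum
            intro u hu
            exact (mem_filter.mp hu).2.le
        _ ≤ _ := sum_le_sum_of_subset (filter_subset _ _)
    have h3 : 16 * ∑ j ∈ range k, #{u : Fin h → Bool | Atyp N ℓ (wd u) (j * ℓ)} ≤ k * 2 ^ h := by
      rw [mul_sum]
      calc ∑ j ∈ range k, 16 * #{u : Fin h → Bool | Atyp N ℓ (wd u) (j * ℓ)}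
          ≤ ∑ _j ∈ range k, 2 ^ h := by
            apply sum_le_sum
            intro j hj
            refine card_atyp hN hE hℓ ?_
            have : (j + 1) * ℓ ≤ k * ℓ := Nat.mul_le_mul_right ℓ (mem_range.mp hj)
            rw [add_mul, one_mul] at this
            exact this
        _ = k * 2 ^ h := by rw [sum_const, card_range, smul_eq_mul]
    have h4 : k * (4 * #{u : Fin h → Bool |
        k < 4 * #{j ∈ range k | Atyp N ℓ (wd u) (j * ℓ)}}) ≤ k * 2 ^ h := by
      nlinarith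
    exact Nat.le_of_mul_le_mul_left h4 hkpos
  -- few words with large sum
  have hB : 4 * #{u : Fin h → Bool | (k : ℤ) < |sm (wd u)| * (8 * ℓ)} ≤ 2 ^ h := by
    have h1 : (#{u : Fin h → Bool | (k : ℤ) < |sm (wd u)| * (8 * ℓ)} : ℤ) * k ^ 2 ≤
        64 * ℓ ^ 2 * (h * 2 ^ h) := by
      rw [← second_moment, mul_sum, ← nsmul_eq_mul, ← sum_const]
      calc ∑ _u ∈ {u : Fin h → Bool | (k : ℤ) < |sm (wd u)| * (8 * ℓ)}, (k : ℤ) ^ 2
          ≤ ∑ u ∈ {u : Fin h → Bool | (k : ℤ) < |sm (wd u)| * (8 * ℓ)},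
            64 * (ℓ : ℤ) ^ 2 * (∑ t : Fin h, sg (u t)) ^ 2 := by
            apply sum_le_sum
            intro u hu
            have h2 := (mem_filter.mp hu).2
            rw [← sm_wd]
            calc (k : ℤ) ^ 2 ≤ (|sm (wd u)| * (8 * ℓ)) ^ 2 :=
                  pow_le_pow_left₀ (by positivity) h2.le 2
              _ = 64 * (ℓ : ℤ) ^ 2 * (sm (wd u)) ^ 2 := by
                  rw [mul_pow, sq_abs]; ring
        _ ≤ ∑ u : Fin h → Bool, 64 * (ℓ : ℤ) ^ 2 * (∑ t : Fin h, sg (u t)) ^ 2 := by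
            apply sum_le_sum_of_subset_of_nonneg (filter_subset _ _)
            intro u _ _
            positivity
    have h2 : #{u : Fin h → Bool | (k : ℤ) < |sm (wd u)| * (8 * ℓ)} * k ^ 2 ≤
        64 * ℓ ^ 2 * (h * 2 ^ h) := by exact_mod_cast h1
    have h3 : k ^ 2 * (4 * #{u : Fin h → Bool | (k : ℤ) < |sm (wd u)| * (8 * ℓ)}) ≤
        k ^ 2 * 2 ^ h := by
      calc k ^ 2 * (4 * #{u : Fin h → Bool | (k : ℤ) < |sm (wd u)| * (8 * ℓ)})
          = 4 * (#{u : Fin h → Bool | (k : ℤ) < |sm (wd u)| * (8 * ℓ)} * k ^ 2) := by ring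
        _ ≤ 4 * (64 * ℓ ^ 2 * (h * 2 ^ h)) := Nat.mul_le_mul_left _ h2
        _ = k * (256 * ℓ ^ 3) * 2 ^ h := by rw [hh]; ring
        _ ≤ k * k * 2 ^ h := Nat.mul_le_mul_right _ (Nat.mul_le_mul_left _ hk)
        _ = k ^ 2 * 2 ^ h := by ring
    exact Nat.le_of_mul_le_mul_left h3 (by positivity)
  have hC : (2 : ℕ) ^ h ≤ #{u : Fin h → Bool |
        4 * #{j ∈ range k | Atyp N ℓ (wd u) (j * ℓ)} ≤ k ∧ |sm (wd u)| * (8 * ℓ) ≤ k} +
      #{u : Fin h → Bool | k < 4 * #{j ∈ range k | Atyp N ℓ (wd u) (j * ℓ)}} +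
      #{u : Fin h → Bool | (k : ℤ) < |sm (wd u)| * (8 * ℓ)} := by
    have h1 : (2 : ℕ) ^ h = #(univ : Finset (Fin h → Bool)) := by
      rw [card_univ]; simp
    rw [h1]
    refine le_trans (card_le_card (t := ((univ.filter fun u : Fin h → Bool =>
        4 * #{j ∈ range k | Atyp N ℓ (wd u) (j * ℓ)} ≤ k ∧ |sm (wd u)| * (8 * ℓ) ≤ k) ∪
      ((univ.filter fun u : Fin h → Bool => k < 4 * #{j ∈ range k | Atyp N ℓ (wd u) (j * ℓ)}) ∪
      (univ.filter fun u : Fin h → Bool => (k : ℤ) < |sm (wd u)| * (8 * ℓ))))) ?_) ?_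
    · intro u _
      simp only [mem_union, mem_filter, mem_univ, true_and]
      by_cases h2 : 4 * #{j ∈ range k | Atyp N ℓ (wd u) (j * ℓ)} ≤ k
      · by_cases h3 : |sm (wd u)| * (8 * ℓ) ≤ k
        · exact Or.inl ⟨h2, h3⟩
        · exact Or.inr (Or.inr (not_le.mp h3))
      · exact Or.inr (Or.inl (not_le.mp h2))
    · refine le_trans (card_union_le _ _) ?_
      rw [add_assoc]
      exact Nat.add_le_add_left (card_union_le _ _) _
  omega

theorem exists_ofFn {α : Type} (L : List α) (n : ℕ) (h : L.length = n) :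
    ∃ f : Fin n → α, List.ofFn f = L := by
  subst h
  exact ⟨L.get, List.ofFn_get L⟩

theorem not_linearGenericCase :
    ¬ LinearGenericCase (fun _ : Unit => Multiplicative.ofAdd (1 : ℤ)) := by
  classical
  rintro ⟨M, hM, C, hlim⟩
  have := M.finQ
  have hfin : Finite {l : List M.Q // l.length ≤ 8 * C} := List.finite_length_le M.Q (8 * C)
  set N := Nat.card {l : List M.Q // l.length ≤ 8 * C} with hN
  have hNpos : 0 < N := by
    have : Nonempty {l : List M.Q // l.length ≤ 8 * C} := ⟨⟨[], by simp⟩⟩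
    exact Nat.card_pos
  obtain ⟨E, hE⟩ : ∃ E, E = 128 * N ^ 2 := ⟨_, rfl⟩
  obtain ⟨ℓ, hℓ⟩ : ∃ ℓ, ℓ = 2 * E ^ 3 := ⟨_, rfl⟩
  have hEpos : 0 < E := by rw [hE]; positivity
  have hℓpos : 0 < ℓ := by rw [hℓ]; positivity
  have hℓ2 : 2 ≤ ℓ := by
    rw [hℓ]
    have : 0 < E ^ 3 := by positivity
    omega
  obtain ⟨F, hF⟩ : ∃ F, F = ℓ.factorial := ⟨_, rfl⟩
  have hFpos : 0 < F := by rw [hF]; exact Nat.factorial_pos ℓ
  have hF2 : 2 ∣ F := by rw [hF]; exact Nat.dvd_factorial (by norm_num) hℓ2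
  set r := 2 * F with hr
  have hev := hlim.eventually (gt_mem_nhds (show (0 : ℝ) < 1 / 2 ^ (r + 1) by positivity))
  rw [Filter.eventually_atTop] at hev
  obtain ⟨n₀, hn₀⟩ := hev
  obtain ⟨k, hk⟩ : ∃ k, k = n₀ + 256 * ℓ ^ 3 + 16 * ℓ * F := ⟨_, rfl⟩
  have hk1 : 256 * ℓ ^ 3 ≤ k := by omega
  have hk2 : 16 * ℓ * F ≤ k := by omega
  have hkF : 2 * F ≤ k := by nlinarith
  have hkℓ : k ≤ k * ℓ := Nat.le_mul_of_pos_right _ hℓpos
  have hgood := card_good hNpos hE hℓ hk1
  set h := k * ℓ with hh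
  have hlt := hn₀ (r + h) (by omega)
  -- the prefix
  have hpre : ∀ u : Fin h → Bool, ∃ a ≤ r, sm (pre r a ++ wd u) ≠ 0 ∧
      (F : ℤ) ∣ sm (pre r a ++ wd u) := by
    intro u
    obtain ⟨c, hc⟩ := sm_parity (wd u)
    rw [length_wd] at hc
    have hh2 : (2 : ℤ) ∣ h := by
      refine ⟨k * E ^ 3, ?_⟩
      rw [hh, hℓ]; push_cast; ring
    obtain ⟨c', hc'⟩ := hh2
    obtain ⟨F', hF'⟩ := hF2
    -- s₀ = (- sm (wd u)) mod F
    have hFz : (F : ℤ) ≠ 0 := by exact_mod_cast hFpos.ne'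
    have hs0 := Int.emod_nonneg (-sm (wd u)) hFz
    have hs1 := Int.emod_lt_of_pos (-sm (wd u)) (by exact_mod_cast hFpos : (0 : ℤ) < F)
    have hs2 := Int.emod_add_mul_ediv (-sm (wd u)) F
    set s₀ := (-sm (wd u)) % F with hs₀
    set q := (-sm (wd u)) / F with hq
    have hFF : (F : ℤ) = 2 * F' := by exact_mod_cast hF'
    have heven : ∃ s', s₀ = 2 * s' := by
      refine ⟨-(c - c') - F' * q, ?_⟩
      have : s₀ = -sm (wd u) - F * q := by linarith
      rw [this, hFF]
      linarith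
    obtain ⟨s', hs'⟩ := heven
    by_cases hz : s₀ + sm (wd u) = 0
    · refine ⟨(s' + F' + F).toNat, ?_, ?_⟩
      · omega
      · have h1 : ((s' + F' + F).toNat : ℤ) = s' + F' + F := Int.toNat_of_nonneg (by omega)
        rw [sm_append, sm_pre (by omega), h1, hr]
        push_cast
        have h2 : 2 * (s' + F' + F) - 2 * F + sm (wd u) = F := by linarith
        rw [h2]
        exact ⟨hFz, dvd_refl _⟩
    · refine ⟨(s' + F).toNat, ?_, ?_⟩
      · omega
      · have h1 : ((s' + F).toNat : ℤ) = s' + F := Int.toNat_of_nonneg (by omega)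
        rw [sm_append, sm_pre (by omega), h1, hr]
        push_cast
        have h2 : 2 * (s' + F) - 2 * F + sm (wd u) = s₀ + sm (wd u) := by linarith
        rw [h2]
        refine ⟨hz, -q, ?_⟩
        linarith
  choose a ha ha0 hadvd using hpre
  have hlen : ∀ u, (pre r (a u) ++ wd u).length = r + h := by
    intro u
    rw [List.length_append, length_pre (ha u), length_wd]
  choose f hf using fun u => exists_ofFn (pre r (a u) ++ wd u) (r + h) (hlen u)
  have hfinj : Function.Injective f := by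
    intro u v huv
    have h1 : pre r (a u) ++ wd u = pre r (a v) ++ wd v := by rw [← hf, ← hf, huv]
    have h2 := List.append_inj_right h1 (by rw [length_pre (ha u), length_pre (ha v)])
    unfold wd at h2
    have h3 := List.ofFn_injective h2
    funext t
    have h4 := congrFun h3 t
    simpa using h4
  set Gd : Finset (Fin h → Bool) := {u : Fin h → Bool |
      4 * #{j ∈ range k | Atyp N ℓ (wd u) (j * ℓ)} ≤ k ∧ |sm (wd u)| * (8 * ℓ) ≤ k} with hGd
  have hbad : ∀ u ∈ Gd, ¬ M.HaltsIn (List.ofFn (f u)) (C * (r + h)) := by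
    intro u hu
    rw [hGd, mem_filter] at hu
    obtain ⟨_, hu1, hu2⟩ := hu
    rw [hf, ← hlen u]
    refine no_quick M hM C N ℓ k r hN hℓpos _ (hlen u) (by omega) (by omega) (ha0 u)
      (by rw [← hF]; exact hadvd u) ?_ ?_
    · rw [sm_append, sm_pre (ha u)]
      have h1 : |2 * (a u : ℤ) - r| ≤ r := by
        have := ha u
        rw [abs_le]
        constructor <;> omega
      have h2 := abs_add_le (2 * (a u : ℤ) - r) (sm (wd u))
      have h3 : |2 * (a u : ℤ) - r + sm (wd u)| * (8 * ℓ) ≤ 2 * k := by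
        calc |2 * (a u : ℤ) - r + sm (wd u)| * (8 * ℓ)
            ≤ (r + |sm (wd u)|) * (8 * ℓ) :=
              mul_le_mul_of_nonneg_right (by linarith) (by positivity)
          _ = 16 * ℓ * F + |sm (wd u)| * (8 * ℓ) := by rw [hr]; push_cast; ring
          _ ≤ k + k := by
              have : (16 * ℓ * F : ℤ) ≤ k := by exact_mod_cast hk2
              linarith
          _ = 2 * k := by ring
      linarith
    · have h1 : {j ∈ range k | Atyp N ℓ (pre r (a u) ++ wd u) (r + j * ℓ)} =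
          {j ∈ range k | Atyp N ℓ (wd u) (j * ℓ)} := by
        apply filter_congr
        intro j _
        exact atyp_append _ _ (length_pre (ha u)) _
      rw [h1]
      exact hu1
  have hcard : #Gd ≤ Nat.card {w : Fin (r + h) → Unit × Bool //
      ¬ M.HaltsIn (List.ofFn w) (C * (r + h))} := by
    rw [← Fintype.card_coe, ← Nat.card_eq_fintype_card]
    refine Nat.card_le_card_of_injective
      (fun u : {x // x ∈ Gd} => (⟨f u.1, hbad u.1 u.2⟩ : {w : Fin (r + h) → Unit × Bool //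
        ¬ M.HaltsIn (List.ofFn w) (C * (r + h))})) ?_
    intro u v huv
    rw [Subtype.mk.injEq] at huv
    exact Subtype.ext (hfinj huv)
  have htot : (Fintype.card (Fin (r + h) → Unit × Bool) : ℝ) = 2 ^ (r + h) := by
    simp
  rw [htot, div_lt_div_iff₀ (by positivity) (by positivity)] at hlt
  have h5 : (2 : ℝ) ^ h ≤ 2 * (Nat.card {w : Fin (r + h) → Unit × Bool //
      ¬ M.HaltsIn (List.ofFn w) (C * (r + h))} : ℝ) := by
    have : 2 ^ h ≤ 2 * Nat.card {w : Fin (r + h) → Unit × Bool //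
      ¬ M.HaltsIn (List.ofFn w) (C * (r + h))} := by omega
    exact_mod_cast this
  have h6 : (2 : ℝ) ^ (r + h) = 2 ^ r * 2 ^ h := pow_add _ _ _
  have h7 : (2 : ℝ) ^ (r + 1) = 2 ^ r * 2 := pow_succ _ _
  rw [h6, h7] at hlt
  have h8 : (0 : ℝ) < 2 ^ r := by positivity
  nlinarith

end Pool.Agent.Lib.MP_9490e0_al
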