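import Pool.Agent.Lib.MP_9490e0_al.Glue

/-!
Surgery on words: deleting or duplicating a factor between two boundaries with the same crossing
sequence does not change the answer of the machine.
-/

set_option autoImplicit false

namespace Pool.Agent.Lib.MP_9490e0_al

namespace Machine

variable {A : Type} {M : Machine A}

/-- The configuration shifted by `D` cells. -/
def shift (D : ℤ) (c : M.Cfg) : M.Cfg := ⟨c.q, c.pos + D, fun i => c.tape (i - D)⟩

theorem nxt_shift (D : ℤ) (c : M.Cfg) : M.nxt (shift D c) = shift D (M.nxt c) := by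
  unfold nxt shift
  simp only [add_sub_cancel_right]
  rcases h : M.δ c.q (c.tape c.pos) with _ | ⟨q', a, d⟩
  · rfl
  · simp only
    ext1
    · rfl
    · cases d <;> simp <;> ring
    · funext i
      by_cases hi : i = c.pos + D
      · subst hi; simp
      · simp only
        rw [Function.update_of_ne hi, Function.update_of_ne (by intro h; apply hi; rw [← h]; ring)]

theorem run_shift (D : ℤ) (t : ℕ) : ∀ c : M.Cfg, M.run (shift D c) t = shift D (M.run c t) := by
  induction t with
  | zero => intro c; rfl
  | succ t ih => intro c; rw [run_succ, nxt_shift, ih, run_succ]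

theorem halted_shift (D : ℤ) (c : M.Cfg) : M.Halted (shift D c) ↔ M.Halted c := by
  unfold Halted shift
  simp only [add_sub_cancel_right]

theorem st_shift (D x : ℤ) (c : M.Cfg) : st (x + D) (shift D c) = st x c := by
  unfold st
  rw [nxt_shift]
  have h1 : (shift D c).pos = c.pos + D := rfl
  have h2 : (shift D (M.nxt c)).pos = (M.nxt c).pos + D := rfl
  have h3 : (shift D (M.nxt c)).q = (M.nxt c).q := rfl
  rw [h1, h2, h3]
  congr 1
  simp only [add_lt_add_iff_right, add_le_add_iff_right]

theorem cr_shift (D x : ℤ) (t : ℕ) : ∀ c : M.Cfg, cr (x + D) (shift D c) t = cr x c t := by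
  induction t with
  | zero => intro c; rfl
  | succ t ih => intro c; rw [cr_succ, cr_succ, st_shift, nxt_shift, ih]

/-- **Surgery.**  If the crossing sequences at `β` and `γ` agree, the word obtained by continuing
after the first `β` letters with the letters from `γ` on gets the same answer, and the crossing
sequences at the boundaries up to `β` do not change. -/
theorem surgery {w : List A} {h : ℕ} (H : M.HaltsIn w h) {β γ : ℕ} (hβ : 0 < β) (hγ : 0 < γ)
    (hβw : β ≤ w.length)
    (hcr : cr (β : ℤ) (M.init w) h = cr (γ : ℤ) (M.init w) h) :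
    ∃ k, M.HaltsIn (w.take β ++ w.drop γ) k ∧
      (M.run (M.init (w.take β ++ w.drop γ)) k).q = (M.run (M.init w) h).q ∧
      ∀ x : ℤ, x ≤ β → cr x (M.init (w.take β ++ w.drop γ)) k = cr x (M.init w) h := by
  have H2 : M.Halted (M.run (shift ((β : ℤ) - γ) (M.init w)) h) := by
    rw [run_shift, halted_shift]; exact H
  have hpos : (M.init w).pos = 0 := rfl
  have hc2 : cr (β : ℤ) (shift ((β : ℤ) - γ) (M.init w)) h = cr (γ : ℤ) (M.init w) h := by
    have := cr_shift ((β : ℤ) - γ) γ h (M.init w)
    rwa [add_sub_cancel] at this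
  obtain ⟨k, k1, k2, k3⟩ := glue (β : ℤ) (M.init w) (shift ((β : ℤ) - γ) (M.init w)) h h H H2
    (by rw [hpos]; exact_mod_cast hβ)
    (by
      have : (shift ((β : ℤ) - γ) (M.init w)).pos = 0 + ((β : ℤ) - γ) := rfl
      rw [this]; omega)
    (by rw [hcr, hc2])
  have hinit : (⟨(M.init w).q, (M.init w).pos, fun i => if i < (β : ℤ) then (M.init w).tape i else
      (shift ((β : ℤ) - γ) (M.init w)).tape i⟩ : M.Cfg) = M.init (w.take β ++ w.drop γ) := by
    unfold init shift
    ext1
    · rfl
    · rfl
    · funext i
      simp only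
      by_cases hi0 : i < 0
      · rw [if_pos hi0, if_pos hi0, if_pos (by omega)]
      · rw [if_neg hi0, if_neg hi0]
        obtain ⟨i, rfl⟩ := Int.eq_ofNat_of_zero_le (not_lt.mp hi0)
        rw [List.map_append, List.map_take, List.map_drop]
        by_cases hiβ : i < β
        · rw [if_pos (by exact_mod_cast hiβ)]
          simp only [List.getD_eq_getElem?_getD, Int.toNat_natCast]
          rw [List.getElem?_append_left (by simp; omega), List.getElem?_take_of_lt hiβ]
        · rw [if_neg (by exact_mod_cast hiβ), if_neg (by omega)]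
          simp only [List.getD_eq_getElem?_getD, Int.toNat_natCast]
          rw [List.getElem?_append_right (by simp; omega), List.getElem?_drop]
          congr 2
          simp
          omega
  rw [hinit] at k1 k2 k3
  refine ⟨k, k1, ?_, k3⟩
  rcases k2 with k2 | k2
  · exact k2
  · rw [k2, run_shift]; rfl

end Machine

section Iterate

variable {M : Machine (Unit × Bool)}

/-- `±1` -/
def sg (b : Bool) : ℤ := if b then 1 else -1

/-- The sum of a word over `{x, x⁻¹}` in `ℤ`. -/
def sm (w : List (Unit × Bool)) : ℤ := (w.map fun p => sg p.2).sum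

theorem sm_append (v w : List (Unit × Bool)) : sm (v ++ w) = sm v + sm w := by
  unfold sm; rw [List.map_append, List.sum_append]

theorem sm_surgery (w : List (Unit × Bool)) (β γ : ℕ) :
    sm (w.take β ++ w.drop γ) = sm w + (sm (w.take β) - sm (w.take γ)) := by
  have h := sm_append (w.take γ) (w.drop γ)
  rw [List.take_append_drop] at h
  rw [sm_append, h]
  ring

open Machine in
/-- **Iterated surgery.** -/
theorem iter (L : List (ℕ × ℕ)) : ∀ {w : List (Unit × Bool)} {h : ℕ}, M.HaltsIn w h →
    (∀ p ∈ L, 0 < p.1 ∧ 0 < p.2 ∧ p.1 ≤ w.length ∧ p.2 ≤ w.length ∧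
      cr (p.1 : ℤ) (M.init w) h = cr (p.2 : ℤ) (M.init w) h) →
    L.Pairwise (fun p p' => max p'.1 p'.2 ≤ min p.1 p.2) →
    ∃ (w' : List (Unit × Bool)) (h' : ℕ), M.HaltsIn w' h' ∧
      (M.run (M.init w') h').q = (M.run (M.init w) h).q ∧
      sm w' = sm w + (L.map fun p => sm (w.take p.1) - sm (w.take p.2)).sum := by
  induction L with
  | nil =>
    intro w h H _ _
    exact ⟨w, h, H, rfl, by simp⟩
  | cons p L ih =>
    intro w h H hL hP
    obtain ⟨h1, h2, h3, h4, h5⟩ := hL p (List.mem_cons_self ..)
    obtain ⟨k, k1, k2, k3⟩ := surgery H h1 h2 h3 h5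
    rw [List.pairwise_cons] at hP
    have htake : ∀ x ≤ p.1, (w.take p.1 ++ w.drop p.2).take x = w.take x := by
      intro x hx
      rw [List.take_append_of_le_length (by simp; omega), List.take_take, min_eq_left hx]
    obtain ⟨w', h', e1, e2, e3⟩ := ih k1 (by
      intro p' hp'
      obtain ⟨g1, g2, g3, g4, g5⟩ := hL p' (List.mem_cons_of_mem _ hp')
      have hle := hP.1 p' hp'
      have hle1 : p'.1 ≤ p.1 := le_trans (le_max_left _ _) (le_trans hle (min_le_left _ _))
      have hle2 : p'.2 ≤ p.1 := le_trans (le_max_right _ _) (le_trans hle (min_le_left _ _))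
      refine ⟨g1, g2, by simp; omega, by simp; omega, ?_⟩
      rw [k3 _ (by exact_mod_cast hle1), k3 _ (by exact_mod_cast hle2), g5]) hP.2
    refine ⟨w', h', e1, by rw [e2, k2], ?_⟩
    rw [e3, sm_surgery, List.map_cons, List.sum_cons, add_assoc]
    congr 2
    apply congrArg
    apply List.map_congr_left
    intro p' hp'
    have hle := hP.1 p' hp'
    have hle1 : p'.1 ≤ p.1 := le_trans (le_max_left _ _) (le_trans hle (min_le_left _ _))
    have hle2 : p'.2 ≤ p.1 := le_trans (le_max_right _ _) (le_trans hle (min_le_left _ _))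
    rw [htake _ hle1, htake _ hle2]

theorem value_eq (w : List (Unit × Bool)) :
    value (fun _ : Unit => Multiplicative.ofAdd (1 : ℤ)) w = Multiplicative.ofAdd (sm w) := by
  induction w with
  | nil => rfl
  | cons p w ih =>
    unfold value sm at *
    rw [List.map_cons, List.prod_cons, ih, List.map_cons, List.sum_cons, ofAdd_add]
    congr 1

theorem value_eq_one (w : List (Unit × Bool)) :
    value (fun _ : Unit => Multiplicative.ofAdd (1 : ℤ)) w = 1 ↔ sm w = 0 := by
  rw [value_eq]
  exact ofAdd_eq_one

end Iterate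

end Pool.Agent.Lib.MP_9490e0_al
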