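import Mathlib

/-!
Deterministic single-tape Turing machines and the average-case / generic-case complexity of the
word problem of a finitely generated group.
-/

set_option autoImplicit false

namespace Pool.Agent.Lib.MP_9490e0_al

/-- A deterministic Turing machine with one two-way infinite tape (cells indexed by `ℤ`), finitely
many states and tape symbols, for inputs over the alphabet `A`.  `δ q a = none` means that the
machine halts in state `q` when it reads `a`; `δ q a = some (q', a', d)` means that it writes `a'`,
goes to state `q'` and moves one cell to the right (`d = true`) or to the left (`d = false`).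
When it halts in state `q` its answer is `answer q`. -/
structure Machine (A : Type) where
  /-- states -/
  Q : Type
  /-- tape symbols -/
  Γ : Type
  finQ : Finite Q
  finΓ : Finite Γ
  /-- the blank symbol -/
  blank : Γ
  /-- the symbol for an input letter -/
  letter : A → Γ
  /-- the starting state -/
  start : Q
  /-- the transition function -/
  δ : Q → Γ → Option (Q × Γ × Bool)
  /-- the answer given when halting in this state -/
  answer : Q → Bool

namespace Machine

variable {A : Type} (M : Machine A)

/-- A configuration: state, head position, tape contents. -/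
@[ext] structure Cfg where
  q : M.Q
  pos : ℤ
  tape : ℤ → M.Γ

/-- The machine halts in this configuration. -/
def Halted (c : M.Cfg) : Prop := M.δ c.q (c.tape c.pos) = none

/-- One step of computation (halting configurations do not change). -/
def nxt (c : M.Cfg) : M.Cfg :=
  match M.δ c.q (c.tape c.pos) with
  | none => c
  | some (q', a, d) =>
      ⟨q', if d then c.pos + 1 else c.pos - 1, Function.update c.tape c.pos a⟩

/-- The configuration after `t` steps. -/
def run (c : M.Cfg) (t : ℕ) : M.Cfg := M.nxt^[t] c

/-- The starting configuration on input `w`: the word is written on the cells `0, 1, …`, all other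
cells are blank, the head is on the cell `0`. -/
def init (w : List A) : M.Cfg :=
  ⟨M.start, 0, fun i => if i < 0 then M.blank else (w.map M.letter).getD i.toNat M.blank⟩

/-- On input `w` the machine halts within `t` steps. -/
def HaltsIn (w : List A) (t : ℕ) : Prop := M.Halted (M.run (M.init w) t)

/-- The running time on input `w` (`0` if the machine does not halt). -/
noncomputable def time (w : List A) : ℕ := sInf {t | M.HaltsIn w t}

end Machine

section WordProblem

variable {G : Type} [Group G] {ι : Type} (x : ι → G)

/-- The element of `G` represented by a word over `X^{±1}`, `X = (x_i)`: the letter `(i, true)`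
stands for `x_i`, the letter `(i, false)` for its inverse. -/
def value (w : List (ι × Bool)) : G := (w.map fun p => if p.2 then x p.1 else (x p.1)⁻¹).prod

/-- The machine never answers wrongly: whenever it halts on a word `w`, it answers `true` if and
only if `w = 1` in `G`. -/
def NeverWrong (M : Machine (ι × Bool)) : Prop :=
  ∀ (w : List (ι × Bool)) (t : ℕ), M.HaltsIn w t →
    (M.answer (M.run (M.init w) t).q = true ↔ value x w = 1)

/-- The word problem has linear average-case complexity: some machine solves it on every input and
its running time, averaged over all words of length `n`, is at most `C n`. -/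
def LinearAverageCase [Fintype ι] : Prop :=
  ∃ M : Machine (ι × Bool), NeverWrong x M ∧ (∀ w, ∃ t, M.HaltsIn w t) ∧
    ∃ C : ℕ, ∀ n : ℕ, (∑ w : Fin n → ι × Bool, M.time (List.ofFn w)) ≤
      C * n * Fintype.card (Fin n → ι × Bool)

/-- The word problem has linear generic-case complexity: some machine never answers wrongly and,
for some `C`, the proportion of the words `w` of length `n` on which it does not halt within `C n`
steps tends to `0`. -/
def LinearGenericCase [Fintype ι] : Prop :=
  ∃ M : Machine (ι × Bool), NeverWrong x M ∧
    ∃ C : ℕ, Filter.Tendsto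
      (fun n : ℕ => (Nat.card {w : Fin n → ι × Bool // ¬ M.HaltsIn (List.ofFn w) (C * n)} : ℝ) /
        Fintype.card (Fin n → ι × Bool)) Filter.atTop (nhds 0)

end WordProblem

namespace Machine

variable {A : Type} {M : Machine A}

theorem run_zero (c : M.Cfg) : M.run c 0 = c := rfl

theorem run_succ (c : M.Cfg) (t : ℕ) : M.run c (t + 1) = M.run (M.nxt c) t :=
  Function.iterate_succ_apply _ _ _

theorem run_succ' (c : M.Cfg) (t : ℕ) : M.run c (t + 1) = M.nxt (M.run c t) :=
  Function.iterate_succ_apply' _ _ _

theorem run_add (c : M.Cfg) (s t : ℕ) : M.run c (s + t) = M.run (M.run c s) t := by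
  unfold run
  rw [add_comm, Function.iterate_add_apply]

theorem nxt_of_halted {c : M.Cfg} (h : M.Halted c) : M.nxt c = c := by
  unfold Halted at h
  unfold nxt
  rw [h]

theorem run_of_halted {c : M.Cfg} (h : M.Halted c) (t : ℕ) : M.run c t = c := by
  induction t with
  | zero => rfl
  | succ t ih => rw [run_succ, nxt_of_halted h, ih]

theorem run_eq_of_halted {c : M.Cfg} {s t : ℕ} (h : M.Halted (M.run c s)) (hst : s ≤ t) :
    M.run c t = M.run c s := by
  obtain ⟨r, rfl⟩ := Nat.exists_eq_add_of_le hst
  rw [run_add, run_of_halted h]

theorem halted_mono {c : M.Cfg} {s t : ℕ} (h : M.Halted (M.run c s)) (hst : s ≤ t) :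
    M.Halted (M.run c t) := by
  rw [run_eq_of_halted h hst]; exact h

theorem nxt_pos (c : M.Cfg) : (M.nxt c).pos = c.pos ∨ (M.nxt c).pos = c.pos + 1 ∨
    (M.nxt c).pos = c.pos - 1 := by
  unfold nxt
  rcases h : M.δ c.q (c.tape c.pos) with _ | ⟨q', a, d⟩
  · simp
  · cases d <;> simp

theorem nxt_tape (c : M.Cfg) {i : ℤ} (h : i ≠ c.pos) : (M.nxt c).tape i = c.tape i := by
  unfold nxt
  rcases h' : M.δ c.q (c.tape c.pos) with _ | ⟨q', a, d⟩
  · simp
  · simp [h]

/-- Two configurations with the same state and head position that agree on the cell under the head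
make the same move. -/
theorem nxt_congr {c d : M.Cfg} (hq : c.q = d.q) (hp : c.pos = d.pos)
    (ht : c.tape c.pos = d.tape c.pos) :
    (M.nxt c).q = (M.nxt d).q ∧ (M.nxt c).pos = (M.nxt d).pos ∧
      (M.nxt c).tape c.pos = (M.nxt d).tape c.pos ∧ (M.Halted c ↔ M.Halted d) := by
  unfold nxt Halted
  rw [hq, ← hp, ht]
  rcases h' : M.δ d.q (d.tape c.pos) with _ | ⟨q', a, e⟩
  · exact ⟨hq, hp, ht, by simp⟩
  · simp

end Machine

end Pool.Agent.Lib.MP_9490e0_al
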