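import Pool.Agent.Lib.MP_9490e0_al.Surgery

/-!
The upper bound: a single-tape machine solving the word problem of `ℤ` in linear time on average.
-/

set_option autoImplicit false

namespace Pool.Agent.Lib.MP_9490e0_al

open Finset

namespace Up

/-- states -/
inductive St where
  | s0 | s1 | pend (b : Bool) | ret
  deriving DecidableEq, Fintype

/-- tape symbols -/
inductive Sy where
  | bl | lt (b : Bool) | X
  deriving DecidableEq, Fintype

/-- The action of a scanning state on a symbol that is not blank. -/
def stp : St → Sy → St × Sy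
  | St.s0, Sy.lt b => (St.pend b, Sy.X)
  | St.s1, Sy.lt b => (St.pend b, Sy.X)
  | St.pend b, Sy.lt b' => (St.s1, if b = b' then Sy.lt b' else Sy.X)
  | s, a => (s, a)

/-- transition function -/
def dl : St → Sy → Option (St × Sy × Bool)
  | St.s0, Sy.bl => none
  | St.s1, Sy.bl => some (St.ret, Sy.bl, false)
  | St.pend _, Sy.bl => none
  | St.ret, Sy.bl => some (St.s0, Sy.bl, true)
  | St.ret, a => some (St.ret, a, false)
  | s, a => some ((stp s a).1, (stp s a).2, true)

/-- The machine. -/
@[reducible] def Mc : Machine (Unit × Bool) where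
  Q := St
  Γ := Sy
  finQ := inferInstance
  finΓ := inferInstance
  blank := Sy.bl
  letter := fun p => Sy.lt p.2
  start := St.s0
  δ := dl
  answer := fun s => s = St.s0

/-- A configuration whose tape contains the list `L` on the cells `0, 1, …`. -/
def mk (s : St) (p : ℤ) (L : List Sy) : Mc.Cfg :=
  ⟨s, p, fun i => if i < 0 then Sy.bl else L.getD i.toNat Sy.bl⟩

theorem mk_tape (s : St) (p : ℤ) (L : List Sy) (j : ℕ) :
    (mk s p L).tape (j : ℤ) = L.getD j Sy.bl := by
  unfold mk
  simp only [Int.toNat_natCast]
  rw [if_neg (by omega)]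

/-- one pass over the tape -/
def scan : St → List Sy → St × List Sy
  | s, [] => (s, [])
  | s, a :: L => ((scan (stp s a).1 L).1, (stp s a).2 :: (scan (stp s a).1 L).2)

theorem dl_scan {s : St} {a : Sy} (hs : s ≠ St.ret) (ha : a ≠ Sy.bl) :
    dl s a = some ((stp s a).1, (stp s a).2, true) := by
  cases s <;> cases a <;> simp_all [dl]

theorem stp_ne {s : St} {a : Sy} (hs : s ≠ St.ret) (ha : a ≠ Sy.bl) :
    (stp s a).1 ≠ St.ret ∧ (stp s a).2 ≠ Sy.bl := by
  cases s <;> cases a <;> simp_all [stp]
  split_ifs <;> simp

theorem nxt_mk {s s' : St} {p : ℕ} {L : List Sy} {a : Sy} {d : Bool} (hp : p < L.length)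
    (hd : dl s (L.getD p Sy.bl) = some (s', a, d)) :
    Mc.nxt (mk s p L) = mk s' (if d then p + 1 else p - 1) (L.set p a) := by
  unfold Machine.nxt
  have h1 : Mc.δ (mk s p L).q ((mk s p L).tape (mk s p L).pos) = some (s', a, d) := by
    have : (mk s p L).pos = (p : ℤ) := rfl
    rw [this, mk_tape]
    exact hd
  rw [h1]
  simp only
  ext1
  · rfl
  · rfl
  · funext i
    simp only
    by_cases hi : i = p
    · subst hi
      have : (mk s p L).pos = (p : ℤ) := rfl
      rw [this, Function.update_self, mk_tape]
      simp [List.getD_eq_getElem?_getD, hp]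
    · have : (mk s p L).pos = (p : ℤ) := rfl
      rw [this, Function.update_of_ne hi]
      unfold mk
      simp only
      by_cases hi0 : i < 0
      · rw [if_pos hi0, if_pos hi0]
      · rw [if_neg hi0, if_neg hi0]
        rw [List.getD_eq_getElem?_getD, List.getD_eq_getElem?_getD, List.getElem?_set_ne]
        omega

theorem run_scan (L : List Sy) : ∀ {s : St} {K : List Sy}, s ≠ St.ret → (∀ a ∈ L, a ≠ Sy.bl) →
    Mc.run (mk s (K.length : ℕ) (K ++ L)) L.length =
      mk (scan s L).1 ((K.length + L.length : ℕ) : ℤ) (K ++ (scan s L).2) := by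
  induction L with
  | nil => intro s K _ _; simp [scan, Machine.run_zero]
  | cons a L ih =>
    intro s K hs hL
    have ha : a ≠ Sy.bl := hL a (List.mem_cons_self ..)
    have hget : (K ++ a :: L).getD K.length Sy.bl = a := by
      rw [List.getD_eq_getElem?_getD]; simp
    have h1 : Mc.nxt (mk s (K.length : ℕ) (K ++ a :: L)) =
        mk (stp s a).1 (((K ++ [(stp s a).2]).length : ℕ) : ℤ) ((K ++ [(stp s a).2]) ++ L) := by
      rw [nxt_mk (by simp) (by rw [hget]; exact dl_scan hs ha)]
      simp
    rw [List.length_cons, Machine.run_succ, h1, ih (stp_ne hs ha).1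
      (fun b hb => hL b (List.mem_cons_of_mem _ hb))]
    simp only [scan, List.length_append, List.length_cons, List.length_nil, List.append_assoc,
      List.cons_append, List.nil_append]
    congr 2
    ring

theorem length_scan (L : List Sy) : ∀ s : St, (scan s L).2.length = L.length := by
  induction L with
  | nil => intro s; rfl
  | cons a L ih => intro s; simp [scan, ih]

theorem scan_ne (L : List Sy) : ∀ {s : St}, s ≠ St.ret → (∀ a ∈ L, a ≠ Sy.bl) →
    ∀ a ∈ (scan s L).2, a ≠ Sy.bl := by
  induction L with
  | nil => intro s _ _ a ha; simp [scan] at ha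
  | cons b L ih =>
    intro s hs hL a ha
    have hb : b ≠ Sy.bl := hL b (List.mem_cons_self ..)
    simp only [scan, List.mem_cons] at ha
    rcases ha with rfl | ha
    · exact (stp_ne hs hb).2
    · exact ih (stp_ne hs hb).1 (fun c hc => hL c (List.mem_cons_of_mem _ hc)) a ha

/-- the way back -/
theorem run_ret (L : List Sy) (hL : ∀ a ∈ L, a ≠ Sy.bl) (j : ℕ) : j ≤ L.length →
    Mc.run (mk St.ret ((j : ℤ) - 1) L) (j + 1) = mk St.s0 0 L := by
  induction j with
  | zero =>
    intro _
    rw [Machine.run_succ, Machine.run_zero]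
    unfold Machine.nxt
    have h1 : Mc.δ (mk St.ret (((0 : ℕ) : ℤ) - 1) L).q ((mk St.ret (((0 : ℕ) : ℤ) - 1) L).tape
        (mk St.ret (((0 : ℕ) : ℤ) - 1) L).pos) = some (St.s0, Sy.bl, true) := by
      simp [mk, Mc, dl]
    rw [h1]
    simp only [if_true]
    ext1
    · rfl
    · simp [mk]
    · funext i
      simp only
      by_cases hi : i = -1
      · subst hi; simp [mk]
      · rw [Function.update_of_ne (by simpa [mk] using hi)]
        rfl
  | succ j ih =>
    intro hj
    have hj' : j < L.length := by omega
    have hmem : L.getD j Sy.bl ≠ Sy.bl := by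
      rw [List.getD_eq_getElem?_getD, List.getElem?_eq_getElem hj', Option.getD_some]
      exact hL _ (List.getElem_mem hj')
    have hd : dl St.ret (L.getD j Sy.bl) = some (St.ret, L.getD j Sy.bl, false) := by
      revert hmem
      generalize L.getD j Sy.bl = a
      intro hmem
      cases a <;> simp_all [dl]
    have hpos : (((j + 1 : ℕ) : ℤ) - 1) = (j : ℤ) := by push_cast; ring
    rw [Machine.run_succ, hpos, nxt_mk hj' hd]
    have hset : L.set j (L.getD j Sy.bl) = L := by
      apply List.ext_getElem?
      intro i
      rw [List.getElem?_set]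
      by_cases h1 : j = i
      · subst h1
        rw [if_pos rfl, if_pos hj', List.getD_eq_getElem?_getD, List.getElem?_eq_getElem hj',
          Option.getD_some]
      · rw [if_neg h1]
    rw [hset]
    simp only [Bool.false_eq_true, if_false]
    exact ih (by omega)

/-- the letters left on the tape -/
def ab : List Sy → List Bool
  | [] => []
  | Sy.lt b :: L => b :: ab L
  | Sy.bl :: L => ab L
  | Sy.X :: L => ab L

/-- one pass on words -/
def out : St → List Bool → List Bool
  | _, [] => []
  | St.pend b, x :: v => if b = x then x :: out St.s1 v else out St.s1 v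
  | _, x :: v => out (St.pend x) v

/-- state at the end of the pass -/
def fin : St → List Bool → St
  | s, [] => s
  | St.pend _, _ :: v => fin St.s1 v
  | _, x :: v => fin (St.pend x) v

theorem scan_spec (L : List Sy) : ∀ {s : St}, s ≠ St.ret → (∀ a ∈ L, a ≠ Sy.bl) →
    (scan s L).1 = fin s (ab L) ∧ ab (scan s L).2 = out s (ab L) := by
  induction L with
  | nil => intro s _ _; cases s <;> simp [scan, ab, fin, out]
  | cons a L ih =>
    intro s hs hL
    have ha : a ≠ Sy.bl := hL a (List.mem_cons_self ..)
    obtain ⟨h1, h2⟩ := ih (stp_ne hs ha).1 (fun c hc => hL c (List.mem_cons_of_mem _ hc))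
    cases a with
    | bl => exact absurd rfl ha
    | X =>
      have h3 : stp s Sy.X = (s, Sy.X) := by cases s <;> rfl
      rw [h3] at h1 h2
      simp only [scan, h3, ab]
      exact ⟨h1, h2⟩
    | lt x =>
      cases s with
      | ret => exact absurd rfl hs
      | s0 => simp only [scan, stp, ab, fin, out] at *; exact ⟨h1, h2⟩
      | s1 => simp only [scan, stp, ab, fin, out] at *; exact ⟨h1, h2⟩
      | pend b =>
        simp only [scan, stp] at *
        refine ⟨h1, ?_⟩
        by_cases hb : b = x
        · rw [if_pos hb]
          simp only [ab, out]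
          rw [if_pos hb, h2]
        · rw [if_neg hb]
          simp only [ab, out]
          rw [if_neg hb]; exact h2

/-- pairing -/
def red : List Bool → List Bool
  | [] => []
  | [_] => []
  | x :: y :: v => if x = y then y :: red v else red v

theorem out_red : ∀ (v : List Bool) (s : St), (s = St.s0 ∨ s = St.s1) → out s v = red v
  | [], s, hs => by rcases hs with rfl | rfl <;> simp [out, red]
  | [x], s, hs => by rcases hs with rfl | rfl <;> simp [out, red]
  | x :: y :: v, s, hs => by
    have ih := out_red v St.s1 (Or.inr rfl)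
    rcases hs with rfl | rfl <;> simp [out, red, ih]

theorem length_red : ∀ v : List Bool, 2 * (red v).length ≤ v.length
  | [] => by simp [red]
  | [x] => by simp [red]
  | x :: y :: v => by
    have ih := length_red v
    unfold red
    split_ifs <;> simp <;> omega

theorem fin_even : ∀ (v : List Bool) (s : St), (s = St.s0 ∨ s = St.s1) → v ≠ [] →
    (v.length % 2 = 0 → fin s v = St.s1) ∧ (v.length % 2 = 1 → ∃ b, fin s v = St.pend b)
  | [], s, hs, h => absurd rfl h
  | [x], s, hs, _ => by rcases hs with rfl | rfl <;> simp [fin]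
  | [x, y], s, hs, _ => by rcases hs with rfl | rfl <;> simp [fin]
  | x :: y :: z :: v, s, hs, _ => by
    have ih := fin_even (z :: v) St.s1 (Or.inr rfl) (by simp)
    have h1 : fin s (x :: y :: z :: v) = fin St.s1 (z :: v) := by
      rcases hs with rfl | rfl <;> simp [fin]
    rw [h1]
    have h2 : (x :: y :: z :: v).length % 2 = (z :: v).length % 2 := by
      simp only [List.length_cons]; omega
    rw [h2]
    exact ih

/-- sum of a word -/
def smb (v : List Bool) : ℤ := (v.map sg).sum

theorem smb_red : ∀ v : List Bool, v.length % 2 = 0 → smb v = 2 * smb (red v)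
  | [], _ => by simp [smb, red]
  | [x], h => by simp at h
  | x :: y :: v, h => by
    have ih := smb_red v (by simp only [List.length_cons] at h; omega)
    have h1 : smb (x :: y :: v) = sg x + sg y + smb v := by simp [smb, add_assoc]
    rw [h1, ih]
    by_cases hxy : x = y
    · subst hxy
      simp only [red, if_true]
      have : smb (x :: red v) = sg x + smb (red v) := by simp [smb]
      rw [this]; ring
    · simp only [red, if_neg hxy]
      cases x <;> cases y <;> simp_all [sg]

theorem smb_odd (v : List Bool) : ∃ c : ℤ, smb v + v.length = 2 * c := by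
  induction v with
  | nil => exact ⟨0, by simp [smb]⟩
  | cons x v ih =>
    obtain ⟨c, hc⟩ := ih
    have h1 : smb (x :: v) = sg x + smb v := by simp [smb]
    rw [h1, List.length_cons]
    cases x
    · exact ⟨c, by push_cast; simp only [sg, Bool.false_eq_true, if_false]; linarith⟩
    · exact ⟨c + 1, by push_cast; simp only [sg, if_true]; linarith⟩

/-- number of passes -/
def passes (v : List Bool) : ℕ :=
  if h : v = [] ∨ v.length % 2 = 1 then 1
  else
    have : (red v).length < v.length := by
      have h1 := length_red v
      have h2 : 0 < v.length := List.length_pos_iff.mpr (fun h0 => h (Or.inl h0))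
      omega
    1 + passes (red v)
termination_by v.length

theorem passes_one {v : List Bool} (h : v = [] ∨ v.length % 2 = 1) : passes v = 1 := by
  rw [passes, dif_pos h]

theorem passes_succ {v : List Bool} (h1 : v ≠ []) (h2 : v.length % 2 = 0) :
    passes v = 1 + passes (red v) := by
  rw [passes, dif_neg]
  rintro (h | h)
  · exact h1 h
  · omega

theorem run_main (m : ℕ) : ∀ (L : List Sy), (∀ a ∈ L, a ≠ Sy.bl) → (ab L).length ≤ m →
    ∃ t, t ≤ (2 * L.length + 2) * (passes (ab L) - 1) + L.length ∧
      Mc.Halted (Mc.run (mk St.s0 0 L) t) ∧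
      (Mc.answer (Mc.run (mk St.s0 0 L) t).q = true ↔ smb (ab L) = 0) := by
  induction m using Nat.strong_induction_on with
  | _ m IH =>
  intro L hL hm
  have hscan := run_scan L (s := St.s0) (K := []) (by simp) hL
  simp only [List.length_nil, Nat.cast_zero, List.nil_append, zero_add] at hscan
  obtain ⟨hfin, hout⟩ := scan_spec L (s := St.s0) (by simp) hL
  set s' := (scan St.s0 L).1 with hs'
  set L' := (scan St.s0 L).2 with hL'
  have hlen' : L'.length = L.length := length_scan L St.s0
  have hblank : (mk s' (L.length : ℤ) L').tape (L.length : ℤ) = Sy.bl := by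
    rw [mk_tape, List.getD_eq_getElem?_getD, List.getElem?_eq_none (by omega)]
    rfl
  have hhalt : ∀ s, dl s Sy.bl = none → s' = s → Mc.Halted (Mc.run (mk St.s0 0 L) L.length) := by
    intro s hs hss
    rw [hscan]
    have h1 : Mc.δ (mk s' (L.length : ℤ) L').q ((mk s' (L.length : ℤ) L').tape (L.length : ℤ)) =
      none := by
      rw [hblank, hss]; exact hs
    exact h1
  by_cases hv : ab L = []
  · have h1 : s' = St.s0 := by rw [hfin, hv]; rfl
    refine ⟨L.length, by omega, hhalt St.s0 rfl h1, ?_⟩
    rw [hscan, hv, h1]
    simp [mk, Mc, smb]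
  · by_cases hpar : (ab L).length % 2 = 1
    · obtain ⟨b, hb⟩ := (fin_even (ab L) St.s0 (Or.inl rfl) hv).2 hpar
      rw [← hfin] at hb
      refine ⟨L.length, by omega, hhalt _ rfl hb, ?_⟩
      rw [hscan, hb]
      obtain ⟨c, hc⟩ := smb_odd (ab L)
      constructor
      · intro h; simp [mk, Mc] at h
      · intro h; rw [h] at hc; omega
    · have hpar' : (ab L).length % 2 = 0 := by omega
      have h1 := (fin_even (ab L) St.s0 (Or.inl rfl) hv).1 hpar'
      rw [← hfin] at h1
      have hout' : ab L' = red (ab L) := by
        rw [hout, out_red _ _ (Or.inl rfl)]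
      have hnb : ∀ a ∈ L', a ≠ Sy.bl := scan_ne L (by simp) hL
      -- the turn
      have hturn : Mc.nxt (mk s' (L.length : ℤ) L') = mk St.ret ((L'.length : ℤ) - 1) L' := by
        unfold Machine.nxt
        have h2 : Mc.δ (mk s' (L.length : ℤ) L').q
            ((mk s' (L.length : ℤ) L').tape (mk s' (L.length : ℤ) L').pos) =
            some (St.ret, Sy.bl, false) := by
          have : (mk s' (L.length : ℤ) L').pos = (L.length : ℤ) := rfl
          rw [this, hblank, h1]
          rfl
        rw [h2]
        simp only [Bool.false_eq_true, if_false]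
        ext1
        · rfl
        · simp only [mk]; rw [hlen']
        · funext i
          simp only
          by_cases hi : i = L.length
          · subst hi
            have : (mk s' (L.length : ℤ) L').pos = (L.length : ℤ) := rfl
            rw [this, Function.update_self]
            rw [mk_tape, List.getD_eq_getElem?_getD, List.getElem?_eq_none (by omega)]
            rfl
          · rw [Function.update_of_ne (by simpa [mk] using hi)]
            rfl
      have hback := run_ret L' hnb L'.length le_rfl
      have hpass : Mc.run (mk St.s0 0 L) (2 * L.length + 2) = mk St.s0 0 L' := by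
        rw [show 2 * L.length + 2 = L.length + ((L.length + 1) + 1) by ring, Machine.run_add,
          hscan, Machine.run_succ, hturn, hlen']
        rw [hlen'] at hback
        exact hback
      have hvpos : 0 < (ab L).length := List.length_pos_iff.mpr hv
      have hlr := length_red (ab L)
      have hlt : (ab L').length < m := by rw [hout']; omega
      obtain ⟨t, ht1, ht2, ht3⟩ := IH _ hlt L' hnb le_rfl
      refine ⟨(2 * L.length + 2) + t, ?_, ?_, ?_⟩
      · rw [passes_succ hv hpar', ← hout']
        have hp1 : 1 ≤ passes (ab L') := by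
          by_cases hc : ab L' = [] ∨ (ab L').length % 2 = 1
          · rw [passes_one hc]
          · push Not at hc
            rw [passes_succ hc.1 (by omega)]; omega
        rw [hlen'] at ht1
        obtain ⟨p, hp⟩ := Nat.exists_eq_add_of_le hp1
        rw [hp] at ht1 ⊢
        simp only [Nat.add_sub_cancel_left] at ht1 ⊢
        have : (2 * L.length + 2) * (1 + p) = (2 * L.length + 2) + (2 * L.length + 2) * p := by ring
        omega
      · rw [Machine.run_add, hpass]; exact ht2
      · rw [Machine.run_add, hpass, ht3, smb_red _ hpar', hout']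
        omega

theorem ab_letters (w : List (Unit × Bool)) : ab (w.map Mc.letter) = w.map Prod.snd := by
  induction w with
  | nil => rfl
  | cons p w ih =>
    simp only [List.map_cons]
    exact congrArg (List.cons p.2) ih

theorem run_word (w : List (Unit × Bool)) :
    ∃ t, t ≤ (2 * w.length + 2) * (passes (w.map Prod.snd) - 1) + w.length ∧
      Mc.HaltsIn w t ∧ (Mc.answer (Mc.run (Mc.init w) t).q = true ↔ sm w = 0) := by
  obtain ⟨t, h1, h2, h3⟩ := run_main _ (w.map Mc.letter) (by
    intro a ha
    rw [List.mem_map] at ha
    obtain ⟨p, _, rfl⟩ := ha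
    simp) le_rfl
  have hinit : Mc.init w = mk St.s0 0 (w.map Mc.letter) := rfl
  rw [ab_letters] at h1 h3
  rw [List.length_map] at h1
  refine ⟨t, h1, ?_, ?_⟩
  · unfold Machine.HaltsIn
    rw [hinit]; exact h2
  · rw [hinit, h3]
    have : smb (w.map Prod.snd) = sm w := by
      unfold smb sm
      rw [List.map_map]
      rfl
    rw [this]

/-! ### The average -/

/-- Sum over all words of length `n`. -/
def SumW (n : ℕ) (φ : List Bool → ℤ) : ℤ := ∑ u : Fin n → Bool, φ (List.ofFn u)

theorem SumW_zero (φ : List Bool → ℤ) : SumW 0 φ = φ [] := by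
  simp [SumW]

theorem SumW_succ (n : ℕ) (φ : List Bool → ℤ) :
    SumW (n + 1) φ = SumW n (fun v => φ (true :: v) + φ (false :: v)) := by
  unfold SumW
  rw [← (Fin.consEquiv (fun _ : Fin (n + 1) => Bool)).sum_comp, Fintype.sum_prod_type,
    Fintype.sum_bool, ← sum_add_distrib]
  apply sum_congr rfl
  intro u _
  have h1 : ∀ b : Bool, List.ofFn ((Fin.consEquiv (fun _ : Fin (n + 1) => Bool)) (b, u)) =
      b :: List.ofFn u := by
    intro b
    rw [List.ofFn_succ]
    simp [Fin.consEquiv]
  rw [h1, h1]

theorem SumW_add (n : ℕ) (φ ψ : List Bool → ℤ) :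
    SumW n (fun v => φ v + ψ v) = SumW n φ + SumW n ψ := by
  unfold SumW; rw [sum_add_distrib]

theorem SumW_const (n : ℕ) (c : ℤ) : SumW n (fun _ => c) = 2 ^ n * c := by
  unfold SumW; simp

theorem SumW_congr {n : ℕ} {φ ψ : List Bool → ℤ} (h : ∀ v, v.length = n → φ v = ψ v) :
    SumW n φ = SumW n ψ := by
  unfold SumW
  apply sum_congr rfl
  intro u _
  exact h _ (by simp)

/-- The distribution of `red` of a random word. -/
theorem SumW_red_succ (N : ℕ) (φ : List Bool → ℤ) :
    SumW (2 * (N + 1)) (fun v => φ (red v)) =
      SumW (2 * N) (fun v => φ (true :: red v) + φ (false :: red v)) +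
        2 * SumW (2 * N) (fun v => φ (red v)) := by
  rw [show 2 * (N + 1) = 2 * N + 1 + 1 by ring, SumW_succ, SumW_succ]
  have h1 : ∀ v : List Bool, (φ (red (true :: true :: v)) + φ (red (false :: true :: v))) +
      (φ (red (true :: false :: v)) + φ (red (false :: false :: v))) =
      (φ (true :: red v) + φ (false :: red v)) + (φ (red v) + φ (red v)) := by
    intro v
    simp only [red, if_true, Bool.false_eq_true, Bool.true_eq_false, if_false]
    ring
  rw [SumW_congr (fun v _ => h1 v), SumW_add, SumW_add (2 * N) (fun v => φ (red v))]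
  ring

theorem red_bound (N : ℕ) : ∀ (φ : List Bool → ℤ) (α β : ℤ),
    (∀ m ≤ N, SumW m φ ≤ 2 ^ m * (α + β * (-1) ^ m)) →
    SumW (2 * N) (fun v => φ (red v)) ≤ if N = 0 then α + β else 4 ^ N * α := by
  induction N with
  | zero =>
    intro φ α β h
    have := h 0 le_rfl
    simpa [SumW_zero, red] using this
  | succ N ih =>
    intro φ α β h
    rw [SumW_red_succ, if_neg (Nat.succ_ne_zero N)]
    have h1 := ih (fun v => φ (true :: v) + φ (false :: v)) (2 * α) (-2 * β) (by
      intro m hm
      rw [← SumW_succ]
      refine le_trans (h (m + 1) (by omega)) (le_of_eq ?_)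
      rw [pow_succ, pow_succ]
      ring)
    have h2 := ih φ α β (fun m hm => h m (by omega))
    by_cases hN : N = 0
    · subst hN
      simp only [if_true] at h1 h2
      simp only [zero_add, pow_one]
      linarith
    · rw [if_neg hN] at h1 h2
      have h3 : (4 : ℤ) ^ (N + 1) * α = 4 ^ N * (2 * α) + 2 * (4 ^ N * α) := by ring
      rw [h3]
      linarith

theorem passes_bound (n : ℕ) : SumW n (fun v => (passes v : ℤ)) ≤ 2 ^ n * (2 + 1 * (-1) ^ n) := by
  induction n using Nat.strong_induction_on with
  | _ n ih =>
  rcases Nat.even_or_odd' n with ⟨N, hN | hN⟩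
  · rcases Nat.eq_zero_or_pos N with hN0 | hN0
    · subst hN0
      rw [hN]
      simp [SumW_zero, passes_one]
    · have h1 : SumW n (fun v => (passes v : ℤ)) =
          SumW n (fun v => 1 + (passes (red v) : ℤ)) := by
        apply SumW_congr
        intro v hv
        rw [passes_succ (by rintro rfl; simp at hv; omega) (by omega)]
        push_cast; ring
      rw [h1, SumW_add, SumW_const, hN]
      have h2 := red_bound N (fun v => (passes v : ℤ)) 2 1 (fun m hm => ih m (by omega))
      rw [if_neg (by omega)] at h2
      have h3 : (2 : ℤ) ^ (2 * N) = 4 ^ N := by rw [pow_mul]; norm_num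
      have h4 : (-1 : ℤ) ^ (2 * N) = 1 := by rw [pow_mul]; norm_num
      rw [h3, h4]
      linarith
  · have h1 : SumW n (fun v => (passes v : ℤ)) = SumW n (fun _ => 1) := by
      apply SumW_congr
      intro v hv
      rw [passes_one (Or.inr (by omega))]
      rfl
    rw [h1, SumW_const, hN]
    have h4 : (-1 : ℤ) ^ (2 * N + 1) = -1 := by rw [pow_succ, pow_mul]; norm_num
    rw [h4]
    simp

theorem linearAverageCase :
    LinearAverageCase (fun _ : Unit => Multiplicative.ofAdd (1 : ℤ)) := by
  refine ⟨Mc, ?_, ?_, 12, ?_⟩
  · intro w t ht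
    obtain ⟨t', _, h2, h3⟩ := run_word w
    rw [value_eq_one, ← h3]
    have : Mc.run (Mc.init w) t = Mc.run (Mc.init w) t' := by
      rcases le_total t t' with h | h
      · exact (Machine.run_eq_of_halted ht h).symm
      · exact Machine.run_eq_of_halted h2 h
    rw [this]
  · intro w
    obtain ⟨t, _, h2, _⟩ := run_word w
    exact ⟨t, h2⟩
  · intro n
    have htime : ∀ w : Fin n → Unit × Bool, Mc.time (List.ofFn w) ≤
        (2 * n + 2) * (passes (List.ofFn fun t => (w t).2) - 1) + n := by
      intro w
      obtain ⟨t, h1, h2, _⟩ := run_word (List.ofFn w)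
      refine le_trans (Nat.sInf_le h2) ?_
      rw [List.length_ofFn, List.map_ofFn] at h1
      exact h1
    rcases Nat.eq_zero_or_pos n with hn | hn
    · subst hn
      have h1 : ∀ w : Fin 0 → Unit × Bool, Mc.time (List.ofFn w) = 0 := by
        intro w
        have := htime w
        rw [passes_one (Or.inl (List.ofFn_zero))] at this
        omega
      rw [sum_congr rfl fun w _ => h1 w]
      simp
    · have h1 : ∑ w : Fin n → Unit × Bool, Mc.time (List.ofFn w) ≤
          ∑ w : Fin n → Unit × Bool, 4 * n * passes (List.ofFn fun t => (w t).2) := by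
        apply sum_le_sum
        intro w _
        refine le_trans (htime w) ?_
        set p := passes (List.ofFn fun t => (w t).2) with hp
        have hp1 : 1 ≤ p := by
          by_cases hc : (List.ofFn fun t => (w t).2) = [] ∨
              (List.ofFn fun t => (w t).2).length % 2 = 1
          · rw [hp, passes_one hc]
          · push Not at hc
            rw [hp, passes_succ hc.1 (by omega)]; omega
        obtain ⟨p', hp'⟩ := Nat.exists_eq_add_of_le hp1
        rw [hp']
        simp only [Nat.add_sub_cancel_left]
        nlinarith [Nat.zero_le (n * p'), Nat.mul_le_mul_right p' hn]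
      have h2 : ∑ w : Fin n → Unit × Bool, 4 * n * passes (List.ofFn fun t => (w t).2) =
          ∑ u : Fin n → Bool, 4 * n * passes (List.ofFn u) := by
        apply Fintype.sum_equiv (Equiv.arrowCongr (Equiv.refl (Fin n)) (Equiv.punitProd Bool))
        intro w
        rfl
      have h3 : ∑ u : Fin n → Bool, passes (List.ofFn u) ≤ 3 * 2 ^ n := by
        have h4 := passes_bound n
        unfold SumW at h4
        have h5 : (2 : ℤ) ^ n * (2 + 1 * (-1) ^ n) ≤ 3 * 2 ^ n := by
          rcases Nat.even_or_odd n with h | h
          · rw [h.neg_one_pow]; linarith [show (0 : ℤ) < 2 ^ n by positivity]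
          · rw [h.neg_one_pow]; linarith [show (0 : ℤ) < 2 ^ n by positivity]
        have h6 : ∑ u : Fin n → Bool, (passes (List.ofFn u) : ℤ) ≤ 3 * 2 ^ n := le_trans h4 h5
        exact_mod_cast h6
      rw [h2, ← mul_sum] at h1
      have hcard : Fintype.card (Fin n → Unit × Bool) = 2 ^ n := by simp
      rw [hcard]
      calc _ ≤ 4 * n * ∑ u : Fin n → Bool, passes (List.ofFn u) := h1
        _ ≤ 4 * n * (3 * 2 ^ n) := Nat.mul_le_mul_left _ h3
        _ = 12 * n * 2 ^ n := by ring

end Up

end Pool.Agent.Lib.MP_9490e0_al
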