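import Pool.Agent.Lib.MP_9490e0_al.Surgery

/-!
The deterministic part of the lower bound.
-/

set_option autoImplicit false

namespace Pool.Agent.Lib.MP_9490e0_al

open Finset

namespace Machine

variable {A : Type} {M : Machine A}

theorem st_length_sum (B : Finset ℕ) (c : M.Cfg) : ∑ b ∈ B, (st (b : ℤ) c).length ≤ 1 := by
  have h : ∀ b ∈ B, (st (b : ℤ) c).length ≤
      if b = (max c.pos (M.nxt c).pos).toNat then 1 else 0 := by
    intro b _
    unfold st
    have h3 := M.nxt_pos c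
    split_ifs with h1 h2 h2
    · simp
    · exfalso
      apply h2
      omega
    · simp
    · simp
  calc ∑ b ∈ B, (st (b : ℤ) c).length
      ≤ ∑ b ∈ B, if b = (max c.pos (M.nxt c).pos).toNat then 1 else 0 := sum_le_sum h
    _ ≤ 1 := by
      rw [sum_ite_eq']
      split_ifs <;> simp

/-- The total length of the crossing sequences is at most the number of steps. -/
theorem cr_length_sum (B : Finset ℕ) (t : ℕ) :
    ∀ c : M.Cfg, ∑ b ∈ B, (cr (b : ℤ) c t).length ≤ t := by
  induction t with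
  | zero => intro c; simp
  | succ t ih =>
    intro c
    have h1 := ih (M.nxt c)
    have h2 := st_length_sum B c
    calc ∑ b ∈ B, (cr (b : ℤ) c (t + 1)).length
        = ∑ b ∈ B, (st (b : ℤ) c).length + ∑ b ∈ B, (cr (b : ℤ) (M.nxt c) t).length := by
          rw [← sum_add_distrib]
          apply sum_congr rfl
          intro b _
          rw [cr_succ, List.length_append]
      _ ≤ t + 1 := by omega

end Machine

theorem sm_take_succ (w : List (Unit × Bool)) (b : ℕ) :
    |sm (w.take (b + 1)) - sm (w.take b)| ≤ 1 := by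
  rw [List.take_add_one, sm_append]
  rcases h : w[b]? with _ | p
  · simp [sm]
  · simp only [Option.toList_some, add_sub_cancel_left]
    unfold sm sg
    obtain ⟨_, e⟩ := p
    cases e <;> simp

theorem sm_take_le (w : List (Unit × Bool)) (b m : ℕ) :
    |sm (w.take (b + m)) - sm (w.take b)| ≤ m := by
  induction m with
  | zero => simp
  | succ m ih =>
    have h := sm_take_succ w (b + m)
    rw [← add_assoc]
    calc |sm (w.take (b + m + 1)) - sm (w.take b)|
        = |(sm (w.take (b + m + 1)) - sm (w.take (b + m))) +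
            (sm (w.take (b + m)) - sm (w.take b))| := by ring_nf
      _ ≤ _ := abs_add_le _ _
      _ ≤ 1 + m := add_le_add h ih
      _ = ((m + 1 : ℕ) : ℤ) := by push_cast; ring

/-- Pigeonhole inside one window. -/
theorem window {Q : Type} [Finite Q] (lam ℓ : ℕ) (hℓ : 0 < ℓ) (col : ℕ → List Q) (P : ℕ → ℤ)
    (hgood : ℓ ≤ 2 * #{i ∈ range ℓ | (col i).length ≤ lam})
    (htyp : ∀ a : ℤ, 2 * Nat.card {l : List Q // l.length ≤ lam} * #{i ∈ range ℓ | P i = a} < ℓ) :
    ∃ i < ℓ, ∃ i' < ℓ, col i = col i' ∧ P i ≠ P i' := by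
  classical
  by_contra hcon
  push Not at hcon
  have hfin : Finite {l : List Q // l.length ≤ lam} := List.finite_length_le Q lam
  have := Fintype.ofFinite {l : List Q // l.length ≤ lam}
  set N := Nat.card {l : List Q // l.length ≤ lam} with hN
  have hNF : N = Fintype.card {l : List Q // l.length ≤ lam} := Nat.card_eq_fintype_card
  set G := {i ∈ range ℓ | (col i).length ≤ lam} with hG
  -- colour of the good boundaries
  let c : ℕ → {l : List Q // l.length ≤ lam} := fun i =>
    if h : (col i).length ≤ lam then ⟨col i, h⟩ else ⟨[], by simp⟩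
  have hex : ∃ y : {l : List Q // l.length ≤ lam}, #G ≤ N * #{i ∈ G | c i = y} := by
    by_contra hno
    push Not at hno
    have h1 : #G = ∑ y : {l : List Q // l.length ≤ lam}, #{i ∈ G | c i = y} := by
      rw [card_eq_sum_card_fiberwise (f := c) (t := univ)]
      intro x _
      simp
    have hne : (univ : Finset {l : List Q // l.length ≤ lam}).Nonempty := ⟨⟨[], by simp⟩, mem_univ _⟩
    have h2 : ∑ y : {l : List Q // l.length ≤ lam}, N * #{i ∈ G | c i = y} <
        ∑ _y : {l : List Q // l.length ≤ lam}, #G := sum_lt_sum_of_nonempty hne fun y _ => hno y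
    rw [← mul_sum, ← h1, sum_const, card_univ, ← hNF, smul_eq_mul] at h2
    exact lt_irrefl _ h2
  obtain ⟨y, hy⟩ := hex
  have hne : {i ∈ G | c i = y}.Nonempty := by
    rw [← card_pos]
    by_contra h0
    have h00 : #{i ∈ G | c i = y} = 0 := by omega
    rw [h00, mul_zero] at hy
    omega
  obtain ⟨i₀, hi₀⟩ := hne
  rw [mem_filter, hG, mem_filter, mem_range] at hi₀
  obtain ⟨⟨hi₀ℓ, hi₀g⟩, hi₀c⟩ := hi₀
  have hsub : {i ∈ G | c i = y} ⊆ {i ∈ range ℓ | P i = P i₀} := by
    intro i hi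
    rw [mem_filter, hG, mem_filter, mem_range] at hi
    obtain ⟨⟨hiℓ, hig⟩, hic⟩ := hi
    rw [mem_filter, mem_range]
    refine ⟨hiℓ, hcon i hiℓ i₀ hi₀ℓ ?_⟩
    have h1 : c i = c i₀ := by rw [hic, hi₀c]
    simp only [c, dif_pos hig, dif_pos hi₀g, Subtype.mk.injEq] at h1
    exact h1
  have h3 := card_le_card hsub
  have h4 := htyp (P i₀)
  have h5 : N * #{i ∈ G | c i = y} ≤ N * #{i ∈ range ℓ | P i = P i₀} := Nat.mul_le_mul_left _ h3
  have h6 : ℓ ≤ 2 * N * #{i ∈ range ℓ | P i = P i₀} := by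
    rw [mul_assoc]
    omega
  omega

/-- A window (starting at the boundary `o`, of length `ℓ`) of the word `w` is atypical if some
partial sum is visited at least `ℓ / (2 N)` times. -/
def Atyp (N ℓ : ℕ) (w : List (Unit × Bool)) (o : ℕ) : Prop :=
  ∃ a : ℤ, ℓ ≤ 2 * N * #{i ∈ range ℓ | sm (w.take (o + i)) = a}

open Classical in
/-- **The deterministic lower bound.** -/
theorem no_quick (M : Machine (Unit × Bool))
    (hM : NeverWrong (fun _ : Unit => Multiplicative.ofAdd (1 : ℤ)) M) (C N ℓ k r : ℕ)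
    (hN : N = Nat.card {l : List M.Q // l.length ≤ 8 * C}) (hℓ : 0 < ℓ)
    (w : List (Unit × Bool)) (hw : w.length = r + k * ℓ) (hr : 0 < r) (hr' : r ≤ k * ℓ)
    (hS : sm w ≠ 0) (hdiv : ((ℓ.factorial : ℕ) : ℤ) ∣ sm w) (hsize : |sm w| * (4 * ℓ) ≤ k)
    (hat : 4 * #{j ∈ range k | Atyp N ℓ w (r + j * ℓ)} ≤ k) : ¬ M.HaltsIn w (C * w.length) := by
  intro H
  have := M.finQ
  set c₀ := M.init w with hc₀
  set T := C * w.length with hT
  let col : ℕ → List M.Q := fun b => Machine.cr (b : ℤ) c₀ T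
  let P : ℕ → ℤ := fun b => sm (w.take b)
  -- few bad boundaries
  let Bad : Finset ℕ := {b ∈ Ico r (r + k * ℓ) | 8 * C < (col b).length}
  have hbad : 4 * #Bad ≤ k * ℓ := by
    have h1 : #Bad * (8 * C + 1) ≤ C * (r + k * ℓ) := by
      calc #Bad * (8 * C + 1) = ∑ _b ∈ Bad, (8 * C + 1) := by rw [sum_const, smul_eq_mul]
        _ ≤ ∑ b ∈ Bad, (col b).length := by
          apply sum_le_sum
          intro b hb
          exact (mem_filter.mp hb).2
        _ ≤ T := Machine.cr_length_sum Bad T c₀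
        _ = C * (r + k * ℓ) := by rw [hT, hw]
    have h2 : C * (r + k * ℓ) ≤ C * (2 * (k * ℓ)) := Nat.mul_le_mul_left _ (by omega)
    rcases Nat.eq_zero_or_pos C with hC | hC
    · subst hC
      simp only [mul_zero, zero_add, mul_one, zero_mul] at h1
      omega
    · have h3 : C * (4 * #Bad) ≤ C * (k * ℓ) := by nlinarith
      exact Nat.le_of_mul_le_mul_left h3 hC
  -- windows
  let W₁ : Finset ℕ := {j ∈ range k | ℓ < 2 * #{i ∈ range ℓ | 8 * C < (col (r + j * ℓ + i)).length}}
  have hW₁ : 2 * #W₁ ≤ k := by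
    have h1 : ∑ j ∈ range k, #{i ∈ range ℓ | 8 * C < (col (r + j * ℓ + i)).length} ≤ #Bad := by
      rw [← card_sigma]
      refine card_le_card_of_injOn (fun p => r + p.1 * ℓ + p.2) ?_ ?_
      · intro p hp
        simp only [coe_sigma, Set.mem_sigma_iff, mem_coe, mem_range, mem_filter] at hp
        simp only [Bad, coe_filter, mem_Ico, Set.mem_ofPred_eq]
        refine ⟨⟨by omega, ?_⟩, hp.2.2⟩
        have : (p.1 + 1) * ℓ ≤ k * ℓ := Nat.mul_le_mul_right _ hp.1
        have h2 := hp.2.1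
        rw [add_mul] at this
        omega
      · rintro ⟨j, i⟩ hp ⟨j', i'⟩ hp' he
        simp only [coe_sigma, Set.mem_sigma_iff, mem_coe, mem_range, mem_filter] at hp hp'
        have he' : r + j * ℓ + i = r + j' * ℓ + i' := he
        have h2 : j * ℓ + i = j' * ℓ + i' := by omega
        have h3 : j = j' := by
          have : (j * ℓ + i) / ℓ = (j' * ℓ + i') / ℓ := by rw [h2]
          rwa [mul_comm j, mul_comm j', Nat.mul_add_div hℓ, Nat.mul_add_div hℓ,
            Nat.div_eq_of_lt hp.2.1, Nat.div_eq_of_lt hp'.2.1, add_zero, add_zero] at this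
        subst h3
        have h4 : i = i' := by omega
        subst h4
        rfl
    have h2 : #W₁ * ℓ ≤ 2 * #Bad := by
      calc #W₁ * ℓ = ∑ _j ∈ W₁, ℓ := by rw [sum_const, smul_eq_mul]
        _ ≤ ∑ j ∈ W₁, 2 * #{i ∈ range ℓ | 8 * C < (col (r + j * ℓ + i)).length} := by
          apply sum_le_sum
          intro j hj
          exact (mem_filter.mp hj).2.le
        _ ≤ ∑ j ∈ range k, 2 * #{i ∈ range ℓ | 8 * C < (col (r + j * ℓ + i)).length} :=
          sum_le_sum_of_subset (filter_subset _ _)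
        _ = 2 * ∑ j ∈ range k, #{i ∈ range ℓ | 8 * C < (col (r + j * ℓ + i)).length} := by
          rw [mul_sum]
        _ ≤ 2 * #Bad := by omega
    have h3 : (2 * #W₁) * ℓ ≤ k * ℓ := by nlinarith
    exact Nat.le_of_mul_le_mul_right h3 hℓ
  let W₂ : Finset ℕ := {j ∈ range k | Atyp N ℓ w (r + j * ℓ)}
  let W : Finset ℕ := (range k \ W₁) \ W₂
  have hWcard : k ≤ 4 * #W := by
    have h1 : #(range k \ W₁) + #W₁ = k := by
      rw [card_sdiff_add_card_eq_card (filter_subset _ _), card_range]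
    have h2 : #(range k \ W₁) ≤ #W + #W₂ := by
      have := card_le_card_sdiff_add_card (s := range k \ W₁) (t := W₂)
      exact this
    have h3 : 4 * #W₂ ≤ k := hat
    omega
  -- each window of `W` contains a pair
  have hpair : ∀ j ∈ W, ∃ i < ℓ, ∃ i' < ℓ, col (r + j * ℓ + i) = col (r + j * ℓ + i') ∧
      P (r + j * ℓ + i) ≠ P (r + j * ℓ + i') := by
    intro j hj
    simp only [W, W₁, W₂, mem_sdiff, mem_filter, mem_range, not_and, not_lt] at hj
    obtain ⟨⟨hjk, hj1⟩, hj2⟩ := hj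
    have h1 := hj1 hjk
    have h2 := hj2 hjk
    refine window (8 * C) ℓ hℓ (fun i => col (r + j * ℓ + i)) (fun i => P (r + j * ℓ + i)) ?_ ?_
    · have h3 : #{i ∈ range ℓ | (col (r + j * ℓ + i)).length ≤ 8 * C} +
          #{i ∈ range ℓ | 8 * C < (col (r + j * ℓ + i)).length} = ℓ := by
        have := card_filter_add_card_filter_not (s := range ℓ)
          (fun i => (col (r + j * ℓ + i)).length ≤ 8 * C)
        simp only [not_le, card_range] at this
        exact this
      omega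
    · intro a
      by_contra hcon
      push Not at hcon
      rw [← hN] at hcon
      exact h2 ⟨a, hcon⟩
  -- the size of the jump
  let D : ℕ → ℕ → Prop := fun j d => ∃ β γ : ℕ, r + j * ℓ ≤ β ∧ β < r + (j + 1) * ℓ ∧
    r + j * ℓ ≤ γ ∧ γ < r + (j + 1) * ℓ ∧ col β = col γ ∧ (P β - P γ).natAbs = d
  have hD : ∀ j ∈ W, ∃ d ∈ Ico 1 (ℓ + 1), D j d := by
    intro j hj
    obtain ⟨i, hi, i', hi', h1, h2⟩ := hpair j hj
    refine ⟨(P (r + j * ℓ + i) - P (r + j * ℓ + i')).natAbs, ?_, r + j * ℓ + i, r + j * ℓ + i',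
      by omega, by rw [add_mul]; omega, by omega, by rw [add_mul]; omega, h1, rfl⟩
    rw [mem_Ico]
    have h3 : P (r + j * ℓ + i) - P (r + j * ℓ + i') ≠ 0 := sub_ne_zero.mpr h2
    refine ⟨Int.natAbs_pos.mpr h3, ?_⟩
    have h4 : |P (r + j * ℓ + i) - P (r + j * ℓ + i')| ≤ ℓ := by
      rcases le_total i i' with h5 | h5
      · obtain ⟨e, rfl⟩ := Nat.exists_eq_add_of_le h5
        have := sm_take_le w (r + j * ℓ + i) e
        rw [abs_sub_comm, ← add_assoc]
        calc _ ≤ (e : ℤ) := this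
          _ ≤ ℓ := by exact_mod_cast (by omega : e ≤ ℓ)
      · obtain ⟨e, rfl⟩ := Nat.exists_eq_add_of_le h5
        have := sm_take_le w (r + j * ℓ + i') e
        rw [← add_assoc]
        calc _ ≤ (e : ℤ) := this
          _ ≤ ℓ := by exact_mod_cast (by omega : e ≤ ℓ)
    have h6 := Int.natCast_natAbs (P (r + j * ℓ + i) - P (r + j * ℓ + i'))
    omega
  choose! d hd hDd using hD
  obtain ⟨d₀, hd₀, hV⟩ : ∃ d₀ ∈ Ico 1 (ℓ + 1), #W ≤ ℓ * #{j ∈ W | d j = d₀} := by
    by_contra hno
    push Not at hno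
    have h1 : #W = ∑ y ∈ Ico 1 (ℓ + 1), #{j ∈ W | d j = y} := card_eq_sum_card_fiberwise hd
    have h2 : ∑ y ∈ Ico 1 (ℓ + 1), ℓ * #{j ∈ W | d j = y} < ∑ _y ∈ Ico 1 (ℓ + 1), #W :=
      sum_lt_sum_of_nonempty ⟨1, by rw [mem_Ico]; omega⟩ fun y hy => hno y hy
    rw [← mul_sum, ← h1, sum_const, Nat.card_Ico, smul_eq_mul, Nat.add_sub_cancel] at h2
    exact lt_irrefl _ h2
  rw [mem_Ico] at hd₀
  have hdvd : d₀ ∣ (sm w).natAbs := by
    refine dvd_trans (Nat.dvd_factorial (by omega) (by omega : d₀ ≤ ℓ)) ?_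
    exact Int.natCast_dvd.mp hdiv
  obtain ⟨m, hm⟩ := hdvd
  have hmV : m ≤ #{j ∈ W | d j = d₀} := by
    have h1 : ((sm w).natAbs : ℤ) * (4 * ℓ) ≤ k := by rwa [Int.natCast_natAbs]
    have h2 : (sm w).natAbs * (4 * ℓ) ≤ k := by exact_mod_cast h1
    have h3 : m ≤ (sm w).natAbs := by rw [hm]; exact Nat.le_mul_of_pos_left _ (by omega)
    have h4 : m * (4 * ℓ) ≤ (4 * ℓ) * #{j ∈ W | d j = d₀} := by nlinarith
    rw [mul_comm] at h4
    exact Nat.le_of_mul_le_mul_left h4 (by omega)
  obtain ⟨V, hVsub, hVcard⟩ := exists_subset_card_eq hmV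
  -- oriented pairs
  have hor : ∀ j ∈ V, ∃ p : ℕ × ℕ, r + j * ℓ ≤ p.1 ∧ p.1 < r + (j + 1) * ℓ ∧
      r + j * ℓ ≤ p.2 ∧ p.2 < r + (j + 1) * ℓ ∧ col p.1 = col p.2 ∧
      P p.1 - P p.2 = - (sm w).sign * d₀ := by
    intro j hj
    have hj' := hVsub hj
    rw [mem_filter] at hj'
    obtain ⟨β, γ, h1, h2, h3, h4, h5, h6⟩ := hDd j hj'.1
    rw [hj'.2] at h6
    have h7 : P β - P γ = d₀ ∨ P β - P γ = -d₀ := by omega
    rcases lt_trichotomy (sm w) 0 with hs | hs | hs
    · rw [Int.sign_eq_neg_one_of_neg hs]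
      rcases h7 with h7 | h7
      · exact ⟨(β, γ), h1, h2, h3, h4, h5, by rw [h7]; ring⟩
      · exact ⟨(γ, β), h3, h4, h1, h2, h5.symm, by simp only; linarith⟩
    · exact absurd hs hS
    · rw [Int.sign_eq_one_of_pos hs]
      rcases h7 with h7 | h7
      · exact ⟨(γ, β), h3, h4, h1, h2, h5.symm, by simp only; linarith⟩
      · exact ⟨(β, γ), h1, h2, h3, h4, h5, by rw [h7]; ring⟩
  choose! pr hpr using hor
  have hVk : ∀ j ∈ V, j < k := by
    intro j hj
    have hj' := hVsub hj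
    rw [mem_filter] at hj'
    have := hj'.1
    simp only [W, mem_sdiff, mem_range] at this
    exact this.1.1
  obtain ⟨w', h', e1, e2, e3⟩ := iter ((V.sort (· ≥ ·)).map pr) H
    (by
      intro p hp
      rw [List.mem_map] at hp
      obtain ⟨j, hj, rfl⟩ := hp
      rw [mem_sort] at hj
      obtain ⟨h1, h2, h3, h4, h5, _⟩ := hpr j hj
      have h6 : (j + 1) * ℓ ≤ k * ℓ := Nat.mul_le_mul_right ℓ (hVk j hj)
      refine ⟨by omega, by omega, by rw [hw]; omega, by rw [hw]; omega, h5⟩)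
    (by
      rw [List.pairwise_map]
      refine List.Pairwise.imp_of_mem ?_ (V.sortedGT_sort).pairwise
      intro j j' hj hj' hlt
      rw [mem_sort] at hj hj'
      obtain ⟨h1, h2, h3, h4, _⟩ := hpr j hj
      obtain ⟨g1, g2, g3, g4, _⟩ := hpr j' hj'
      have h6 : (j' + 1) * ℓ ≤ j * ℓ := Nat.mul_le_mul_right ℓ hlt
      omega)
  have hsum : (((V.sort (· ≥ ·)).map pr).map fun p => sm (w.take p.1) - sm (w.take p.2)).sum =
      - sm w := by
    rw [List.map_map]
    have h1 : (V.sort (· ≥ ·)).map ((fun p => sm (w.take p.1) - sm (w.take p.2)) ∘ pr) =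
        (V.sort (· ≥ ·)).map (fun _ => - (sm w).sign * d₀) := by
      apply List.map_congr_left
      intro j hj
      rw [mem_sort] at hj
      exact (hpr j hj).2.2.2.2.2
    rw [h1, List.map_const', List.sum_replicate, length_sort, hVcard]
    have h2 : sm w = (sm w).sign * (sm w).natAbs := (Int.sign_mul_natAbs _).symm
    conv_rhs => rw [h2, hm]
    push_cast
    rw [nsmul_eq_mul]
    ring
  rw [hsum, add_neg_cancel] at e3
  have f1 := (hM w' h' e1).mpr ((value_eq_one w').mpr e3)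
  rw [e2] at f1
  exact hS ((value_eq_one w).mp ((hM w T H).mp f1))

end Pool.Agent.Lib.MP_9490e0_al
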